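import Pool.Agent.ASO.Stmts5
import Pool.Agent.Helper66_SOR.StmtX

/-!
# Squad ASD: elementary abelian defect groups of order `ℓ ^ 2`, diagonal inertial quotients:
definitions

On top of squad ASO.  `Rw E₀ W`: only `1 ∈ E₀` fixes `W ≠ ⊥` pointwise; then the local block `b W`
has inertial index one.  `Dx ℓ E₀ A₁ A₂`: `V₀ = A₁ × A₂` and `E₀` maps `A₁`, `A₂` to themselves; then all
`W` different from `⊥`, `A₁`, `A₂` satisfy `Rw`.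
-/

open scoped BigOperators

noncomputable section

namespace Pool.Agent.PP.SD

open Pool.Agent.Helper51_AWC Pool.Agent.Helper79_WRA Pool.Agent.PP Pool.Agent.PP.KF
open Pool.Agent.PP.K9 Pool.Agent.PP.K9.H97 Pool.Agent.PP.H75 Pool.Agent.PP.T3 Pool.Agent.PP.SO

attribute [local instance] Ideal.Quotient.field

section basic

variable {V₀ : Type} [CommGroup V₀]

/-- `V₀` is elementary abelian of order `ℓ ^ 2`, `E₀` has order prime to `ℓ`. -/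
structure Fq (ℓ : ℕ) (V₀ : Type) [CommGroup V₀] (E₀ : Subgroup (MulAut V₀)) : Prop where
  ex : ∀ v : V₀, v ^ ℓ = 1
  cd : Nat.card V₀ = ℓ ^ 2
  cp : ¬ ℓ ∣ Nat.card E₀

/-- the pointwise stabiliser of `W` in `E₀` -/
def St (E₀ : Subgroup (MulAut V₀)) (W : Subgroup V₀) : Subgroup (MulAut V₀) where
  carrier := {σ | σ ∈ E₀ ∧ ∀ w ∈ W, σ w = w}
  one_mem' := ⟨E₀.one_mem, fun _ _ => rfl⟩
  mul_mem' := fun {a b} ha hb => ⟨E₀.mul_mem ha.1 hb.1, fun w hw => by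
    rw [MulAut.mul_apply, hb.2 w hw, ha.2 w hw]⟩
  inv_mem' := fun {a} ha => ⟨E₀.inv_mem ha.1, fun w hw => by
    rw [MulAut.inv_apply, MulEquiv.symm_apply_eq, ha.2 w hw]⟩

/-- `W ≠ ⊥` and only `1 ∈ E₀` fixes `W` pointwise. -/
def Rw (E₀ : Subgroup (MulAut V₀)) (W : Subgroup V₀) : Prop :=
  W ≠ ⊥ ∧ ∀ σ ∈ E₀, (∀ w ∈ W, σ w = w) → σ = 1

/-- `V₀ = A₁ × A₂`, `E₀` maps `A₁` and `A₂` to themselves, it does not act trivially on `A₁`, and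
some `σ ≠ 1` in `E₀` acts trivially on `A₁`, or `E₀` acts trivially on `A₂`. -/
structure Dx (ℓ : ℕ) (E₀ : Subgroup (MulAut V₀)) (A₁ A₂ : Subgroup V₀) : Prop extends
    Fq ℓ V₀ E₀ where
  c1 : Nat.card A₁ = ℓ
  c2 : Nat.card A₂ = ℓ
  ds : A₁ ⊓ A₂ = ⊥
  s1 : ∀ σ ∈ E₀, ∀ v ∈ A₁, σ v ∈ A₁
  s2 : ∀ σ ∈ E₀, ∀ v ∈ A₂, σ v ∈ A₂
  nt : ∃ σ ∈ E₀, ∃ v ∈ A₁, σ v ≠ v
  cs : (∃ σ ∈ E₀, σ ≠ 1 ∧ ∀ v ∈ A₁, σ v = v) ∨ ∀ σ ∈ E₀, ∀ v ∈ A₂, σ v = v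

/-- the number of the elements of `E₀` which fix `c` -/
def kE (E₀ : Subgroup (MulAut V₀)) (c : V₀) : ℕ := Nat.card (Es E₀ c)

open Classical in
/-- the factor of the weighted numbers: `1` if `W ≤ ⟨c⟩`, otherwise `1/kE` -/
def kf (E₀ : Subgroup (MulAut V₀)) (W : Subgroup V₀) (c : V₀) : ℚ :=
  if W ≤ Subgroup.zpowers c then 1 else (kE E₀ c : ℚ)⁻¹

/-- the alternating sum of four numbers -/
def X4 {A : Type} [AddCommGroup A] (f : Fin 4 → A) : A := f 0 - f 1 - f 2 + f 3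

end basic

section blk

variable {V₀ G H : Type} [CommGroup V₀] [Group G] [Group H] (ℓ : ℕ)
  (M : Ideal (integralClosure ℤ ℂ)) [M.IsMaximal]

/-- the conditions for the degrees and the signs, for the `W` with `Rw E₀ W` -/
structure Sd [Fact ℓ.Prime] (E₀ : Subgroup (MulAut V₀)) (B : Bk (FF M) V₀ G) : Prop extends
    Sb ℓ M E₀ B where
  dg : ∀ W, Rw E₀ W → Dg M (fun t : B.C W => B.b W t) (B.D W)
  sg : ∀ W, Rw E₀ W → B.S W = 1 ∨ B.S W = -1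
  un : ∀ W, Rw E₀ W → ∃ q ∈ SOR.Rl ℓ, B.U W = 1 + ℓ * q

/-- The data `B` of `G` and `B'` of `H` have the same local structure at `A`: `j : H → G` is injective,
its image contains the centraliser of `i(A)`, and the local blocks for `W ≥ A` are the same. -/
structure Pr {F : Type} (A : Subgroup V₀) (B : Bk F V₀ G) (B' : Bk F V₀ H) (j : H →* G) : Prop where
  inj : Function.Injective j
  i : ∀ v, j (B'.i v) = B.i v
  cen : ∀ x ∈ B.C A, ∃ h, j h = x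
  g : ∀ h, B'.g h = B.g (j h)
  b : ∀ W, A ≤ W → ∀ h, B'.b W h = B.b W (j h)

variable {M}

/-- the weights of the two kinds of frames -/
def wtD (E₀ : Subgroup (MulAut V₀)) (B : Bk (FF M) V₀ G) (c : V₀) (full : Bool) (s : G) : ℂ :=
  if full then ((kE E₀ c : ℂ) * Nat.card (B.C ⊤))⁻¹ * bh B ⊤ s
  else (Nat.card (B.C (Subgroup.zpowers c)) : ℂ)⁻¹ * (bh B (Subgroup.zpowers c) s -
    ((kE E₀ c : ℂ) * Nat.card (B.C ⊤))⁻¹ *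
      ∑ᶠ z : B.C (Subgroup.zpowers c), bh B ⊤ ((z : G)⁻¹ * s * z))

/-- the total sum -/
def TSD {n : ℕ} (E₀ : Subgroup (MulAut V₀)) (B : Bk (FF M) V₀ G) (m : ℕ) (c d : V₀)
    (F₁₃ F₁₂ : Set (SO.SS n V₀) → ℚ) : ℂ :=
  ∑ f : Bool, ∑ f' : Bool, ∑ᶠ w : G × G, wtD E₀ B c f w.1 * wtD E₀ B d f' w.2 *
    ((∑ᶠ z : XX (B.i c * w.1) (B.i d * w.2),
      (F₁₃ (t13 n m B.i (frm c f) (frm d f') (B.i c * w.1) z.1.1 z.1.2.1 z.1.2.2) +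
        F₁₂ (t12 n m B.i (frm c f) (frm d f') z.1.1 z.1.2.1 z.1.2.2)) : ℚ) : ℂ)

/-- `∑ ω_χ(f_κ)`, `χ` in the block `b A` of the centraliser of `i(A)` -/
def L1A (B : Bk (FF M) V₀ G) (A : Subgroup V₀) (κ : V₀) : ℂ := ∑ᶠ χ ∈ Ch B A, cv (fc B A κ) χ

end blk

section rel

variable {V₀ : Type} [CommGroup V₀]

/-- The properties of the functions of the types, with the values at the types which are not
products. -/
structure FY (ℓ : ℕ) [Fact ℓ.Prime] (n : ℕ) (ρ₁ ρ₂ : V₀ → ZMod ℓ) (x₁ x₂ : V₀ → ℤ) (c d : V₀)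
    (F₁₃ F₁₂ : Set (SO.SS n V₀) → ℚ) (K : Set (Fin n × V₀ × V₀) → ℚ) : Prop extends
    FX ℓ n ρ₁ ρ₂ x₁ x₂ c d F₁₃ F₁₂ K where
  np : ∀ (p q : V₀) (i₀ : ℕ), ¬ ℓ ∣ i₀ → ∃ z ∈ SOR.Rl ℓ,
    F₁₂ {s | s.2.2.1 = p ^ (s.2.1 : ℕ) ∧ s.2.2.2 = q ^ (s.2.1 : ℕ) ∧
      (s.1 : ℕ) ≡ i₀ * (s.2.1 : ℕ) [MOD ℓ]} =
    (x₁ c⁻¹ * x₂ d⁻¹ : ℤ) / (ℓ : ℚ) ^ 2 - 12 * (x₁ p * x₂ q : ℤ) / ((ℓ : ℚ) ^ 2 * i₀) + z / ℓ

end rel

end Pool.Agent.PP.SD
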