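import Pool.Agent.ASD.DefsD

/-!
# Squad ASD, statements 2: the relation with the values at one more kind of types
-/

open scoped BigOperators

noncomputable section

namespace Pool.Agent.PP.SD

open Pool.Agent.Helper51_AWC Pool.Agent.Helper79_WRA Pool.Agent.PP Pool.Agent.PP.KF
open Pool.Agent.PP.K9 Pool.Agent.PP.K9.H97 Pool.Agent.PP.H75 Pool.Agent.PP.T3 Pool.Agent.PP.SO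

open Classical in
/-- UNJ: the universal form of the second order relation (`SOR.UniStmt`) with one more property of `Ψ`.

Proof.  The functions of the proof of `SOR.UniStmt` (`Helper32_SOR/UNI.lean`).  If `r₁`, `r₂` are in `Rl ℓ` on
the two slices, then `mu = 0` for the two slices and `r₁`, `r₂`, so `Ψ Λ = al * bf`. -/
def UnjStmt : Prop := ∀ (ℓ : ℕ) [Fact ℓ.Prime] (e : ℕ) (P : Type) [CommGroup P] [Finite P],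
  IsPGroup ℓ P → ∀ (r₁ r₂ : P → ℚ) (p₀ : P), (∀ p p', r₁ (p * p') - r₁ p - r₁ p' ∈ SOR.Rl ℓ) →
  (∀ p p', r₂ (p * p') - r₂ p - r₂ p' ∈ SOR.Rl ℓ) → (∀ p, (ℓ : ℚ) ^ e * r₁ p ∈ SOR.Rl ℓ) →
  (∀ p, (ℓ : ℚ) ^ e * r₂ p ∈ SOR.Rl ℓ) → (∀ p, r₁ p ∈ SOR.Rl ℓ → r₁ p = 0) →
  (∀ p, r₂ p ∈ SOR.Rl ℓ → r₂ p = 0) →
  ∃ (Φ Ψ : Set (SOR.L2 (ℓ ^ e) P) → ℚ) (K : Set (SOR.L1 (ℓ ^ e) P) → ℚ),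
    (∀ Λ, (∀ g ∈ Λ, r₁ g.2.2 ∈ SOR.Rl ℓ) → Φ Λ = 0) ∧
    (∀ Λ, (∀ g ∈ Λ, r₂ g.2.2 ∈ SOR.Rl ℓ) → Φ Λ = 0) ∧
    (∀ Λ, (∀ g ∈ Λ, r₁ g.2.2 ∈ SOR.Rl ℓ) → (∀ g ∈ Λ, r₂ g.2.2 ∈ SOR.Rl ℓ) → Ψ Λ = 0) ∧
    (∀ Λ, (∀ g ∈ Λ, ((1 : Multiplicative (ZMod (ℓ ^ e))), g.2.1, g.2.2) ∈ Λ) →
      (∀ g ∈ Λ, g.2.1 = 1 → r₁ g.2.2 ∈ SOR.Rl ℓ ∧ r₂ g.2.2 ∈ SOR.Rl ℓ) → Ψ Λ = 0) ∧
    (∀ U, (∀ g ∈ U, r₁ g.2 ∈ SOR.Rl ℓ) → K U = 0) ∧ (∀ U, (∀ g ∈ U, r₂ g.2 ∈ SOR.Rl ℓ) → K U = 0) ∧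
    (∀ U p, (∀ p', (Multiplicative.ofAdd (1 : ZMod (ℓ ^ e)), p') ∈ U ↔ p' = p) →
      K U = r₁ p * r₂ p) ∧
    (∀ Λ, (∀ g ∈ Λ, g.1 = 1 ∨ g.2.1 = 1 → r₁ g.2.2 ∈ SOR.Rl ℓ ∧ r₂ g.2.2 ∈ SOR.Rl ℓ) →
      (∃ α : ℚ, ∀ (k l : ℤ) (p : P), (Multiplicative.ofAdd (k : ZMod (ℓ ^ e)),
        Multiplicative.ofAdd (l : ZMod (ℓ ^ e)), p) ∈ Λ → r₂ p - k * α ∈ SOR.Rl ℓ) →
      (∃ β : ℚ, ∀ (k l : ℤ) (p : P), (Multiplicative.ofAdd (k : ZMod (ℓ ^ e)),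
        Multiplicative.ofAdd (l : ZMod (ℓ ^ e)), p) ∈ Λ → r₁ p - l * β ∈ SOR.Rl ℓ) →
      ∃ α β : ℚ, Ψ Λ = α * β ∧ ∀ (k l : ℤ) (p : P), (Multiplicative.ofAdd (k : ZMod (ℓ ^ e)),
        Multiplicative.ofAdd (l : ZMod (ℓ ^ e)), p) ∈ Λ →
        r₂ p - k * α ∈ SOR.Rl ℓ ∧ r₁ p - l * β ∈ SOR.Rl ℓ) ∧
    ∀ (Γ X : Type) [Group Γ] [Fintype X] (D : SOR.Bd Γ) (Q : Subgroup P) (q₀ : Q),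
      (q₀ : P) = p₀ →
      ∀ (i : Γ →* Equiv.Perm X) (q : Q →* Equiv.Perm X) (σ : Equiv.Perm X),
      SOR.Xa ℓ D Q q₀ i q σ → ∀ M : ℕ, (M : ZMod (ℓ ^ e)) = 1 → i ((D.a ^ M) ^ ℓ ^ e) = 1 →
      i ((D.a3 ^ M) ^ ℓ ^ e) = 1 → i ((D.T ^ M) ^ ℓ ^ e) = 1 →
      (∑ x ∈ Finset.univ.filter (· ∈ SOR.Gd q), (r₁ p₀ * r₂ p₀ -
        K (SOR.ty1 (ℓ ^ e) i q (D.T ^ M) x) -
        12 * Φ (SOR.ty2 (ℓ ^ e) i q (D.a ^ M) (D.a3 ^ M) x) -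
        12 * Ψ (SOR.ty2 (ℓ ^ e) i q (D.a ^ M) (D.T ^ M) x))) / Nat.card Q ∈ SOR.Rl ℓ

/-- RTZ: the relation for the triples (`SO.RtyStmt`) with `FY` instead of `FX`.

Proof.  The proof of `SO.RtyStmt` (`Helper70_ASO/RTY.lean`) with `UnjStmt` instead of `SOR.UniStmt`.  The
new property `np`: `τ = {(i, k, p ^ k, q ^ k) : i ≡ i₀ k modulo ℓ}` is free (`k = 0` gives `(1, 1)`); the set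
`{(k, p, q) : (0, k, p, q) ∈ τ}` consists of `(k, 1, 1)` with `ℓ ∣ k`, so `K = 0` there (`x₁ 1 = 0`).  On the
slices `i = 0` and `k = 0` one has `ℓ ∣ k` (`ℓ ∤ i₀`, `n` is divisible by `ℓ`), so `p ^ k = q ^ k = 1`.
`α = x₂(q)/(ℓ i₀)`, `β = x₁(p)/ℓ` show the existence (`x₂(q ^ k) - k x₂(q)` is divisible by `ℓ`, and
`k/(ℓ) - i/(ℓ i₀) = (i₀ k - i)/(ℓ i₀) ∈ Rl ℓ`).  For the numbers `α`, `β` of UNJ: the element `k = 1`, `i = i₀`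
gives `β = x₁(p)/ℓ + z₁`, `i₀ α = x₂(q)/ℓ + z₂`, `z₁, z₂ ∈ Rl ℓ`, so
`α β = x₁(p) x₂(q)/(ℓ ^ 2 i₀) + z/ℓ`, `z ∈ Rl ℓ`. -/
def RtzStmt : Prop := ∀ (ℓ : ℕ) [Fact ℓ.Prime] (V₀ : Type) [CommGroup V₀] [Finite V₀],
  (∀ v : V₀, v ^ ℓ = 1) → ∀ (n : ℕ) (ρ₁ ρ₂ : V₀ → ZMod ℓ), (∃ r, 0 < r ∧ n = ℓ ^ r) → Hm ρ₁ →
  Hm ρ₂ → ∀ (x₁ x₂ : V₀ → ℤ), Lf ρ₁ x₁ → Lf ρ₂ x₂ → ∀ (c d : V₀),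
  ∃ (F₁₃ F₁₂ : Set (SO.SS n V₀) → ℚ) (K : Set (Fin n × V₀ × V₀) → ℚ),
    FY ℓ n ρ₁ ρ₂ x₁ x₂ c d F₁₃ F₁₂ K ∧
    ∀ (G : Type) [Group G] [Finite G] (m : ℕ) (ι : V₀ →* G), Function.Injective ι →
      PE ℓ n m G → Rel ℓ n m ι c d F₁₃ F₁₂

end Pool.Agent.PP.SD
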