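import Pool.Agent.ASD.DefsD

/-!
# Squad ASD, statements 3: the rows of `ASO/Stmts3.lean` and `ASO/Stmts4.lean` without freeness

`Fr ℓ V₀ E₀` is replaced by `Fq ℓ V₀ E₀`, `Sy` by `Sd`, and `W ≠ ⊥` by `Rw E₀ W` (only `1 ∈ E₀` fixes `W`
pointwise).  Where freeness was used, it was used in one of the following forms, which hold for `Rw`:
`σ ∈ E₀` is determined by its values on `W`; the local block `b W` has inertial index one.  Also: if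
`Rw E₀ W` and `W ≤ W'` then `Rw E₀ W'`; `Rw E₀ (σ W)` for `σ ∈ E₀` (`Rw E₀ W`); `Rw E₀ ⊤` (the elements of
`MulAut V₀` act faithfully, and `V₀ ≠ 1`); `W ≠ ⊥` is `⊤` or has order `ℓ` (`|V₀| = ℓ ^ 2`).  The numbers
`B.D W`, `B.S W`, `B.U W` have a meaning only for `Rw E₀ W`.  The proofs of the rows of ASO can be copied
(files `Pool/Agent/HelperN_ASO/...`); the changes are given in the docstrings.
-/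

open scoped BigOperators

noncomputable section

namespace Pool.Agent.PP.SD

open Pool.Agent.Helper51_AWC Pool.Agent.Helper79_WRA Pool.Agent.PP Pool.Agent.PP.KF
open Pool.Agent.PP.K9 Pool.Agent.PP.K9.H97 Pool.Agent.PP.H75 Pool.Agent.PP.T3 Pool.Agent.PP.SO

attribute [local instance] Ideal.Quotient.field

/-! ## 0. The condition `Rw` -/

/-- RWD: properties of `Rw`.

Proof.  (1) `W ≤ W' `: `W' ≠ ⊥`, and what fixes `W'` fixes `W`.  (2) `τ ∈ E₀` fixes `σ W` pointwise iff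
`σ⁻¹ τ σ` fixes `W` pointwise.  (3) `|V₀| = ℓ ^ 2 > 1`; an automorphism which fixes all elements is `1`.
(4) `σ⁻¹ τ` fixes `W` pointwise.  (5) The order of `W` divides `ℓ ^ 2`. -/
def RwdStmt : Prop := ∀ (ℓ : ℕ) [Fact ℓ.Prime] (V₀ : Type) [CommGroup V₀] [Finite V₀]
  (E₀ : Subgroup (MulAut V₀)), Fq ℓ V₀ E₀ →
  (∀ W W' : Subgroup V₀, Rw E₀ W → W ≤ W' → Rw E₀ W') ∧
  (∀ σ ∈ E₀, ∀ W : Subgroup V₀, Rw E₀ (W.map σ.toMonoidHom) ↔ Rw E₀ W) ∧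
  Rw E₀ ⊤ ∧
  (∀ W : Subgroup V₀, Rw E₀ W → ∀ σ ∈ E₀, ∀ τ ∈ E₀, (∀ w ∈ W, σ w = τ w) → σ = τ) ∧
  (∀ W : Subgroup V₀, W ≠ ⊥ → W = ⊤ ∨ Nat.card W = ℓ)

/-! ## 1. Local blocks -/

/-- LBD: the local block of `W` has the defect group `V`; its inertial index.

Proof.  As LBG (`Helper40_ASO/LBG.lean`); that `V` is a defect group of `b W` does not use freeness.  The
inertial group is `T ∩ C(i W)`; `T ∩ C(i W) / C(V)` is isomorphic to `St E₀ W` (an element `t ∈ T` acts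
on `V` by `σ ∈ E₀` (`act`), all `σ` occur (`sur`), `t ∈ C(V)` iff `σ = 1`, `t ∈ C(i W)` iff `σ` fixes `W`).
The second claim for `Rw E₀ W`: `St E₀ W = 1`. -/
def LbdStmt : Prop := ∀ (ℓ : ℕ) [Fact ℓ.Prime] (M : Ideal (integralClosure ℤ ℂ)) [M.IsMaximal],
  (ℓ : integralClosure ℤ ℂ) ∈ M → ∀ (V₀ G : Type) [CommGroup V₀] [Finite V₀] [Group G] [Finite G]
  (E₀ : Subgroup (MulAut V₀)), Fq ℓ V₀ E₀ → ∀ B : Bk (FF M) V₀ G, Sb ℓ M E₀ B →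
  ∀ W : Subgroup V₀,
  Ld ℓ (fun t : B.C W => B.b W t) (B.i.range.subgroupOf (B.C W)) (fun t : B.C W => B.g t) ∧
  ix (B.i.range.subgroupOf (B.C W)) (fun t : B.C W => B.g t) = Nat.card (St E₀ W) ∧
  (Rw E₀ W → ix (B.i.range.subgroupOf (B.C W)) (fun t : B.C W => B.g t) = 1)

/-- SYD: existence of the local data.

Proof.  As SYE (`Helper1_ASO/SYE.lean`) for the `W` with `Rw E₀ W`; for the other `W` let `D W = 1`,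
`S W = 1`. -/
def SydStmt : Prop := ∀ (ℓ : ℕ) [Fact ℓ.Prime] (M : Ideal (integralClosure ℤ ℂ)) [M.IsMaximal],
  (ℓ : integralClosure ℤ ℂ) ∈ M → ∀ (V₀ G : Type) [CommGroup V₀] [Finite V₀] [Group G] [Finite G]
  (E₀ : Subgroup (MulAut V₀)), Fq ℓ V₀ E₀ → ∀ (e g : G → FF M) (i : V₀ →* G),
  Function.Injective i → Ld ℓ e i.range g →
  (∀ t ∈ Tg i.range g, ∃ σ ∈ E₀, ∀ v, t * i v * t⁻¹ = i (σ v)) →
  (∀ σ ∈ E₀, ∃ t ∈ Tg i.range g, ∀ v, t * i v * t⁻¹ = i (σ v)) →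
  ∃ B : Bk (FF M) V₀ G, B.e = e ∧ B.g = g ∧ B.i = i ∧ Sd ℓ M E₀ B

/-- DGD: the `ℓ`-parts of the degrees.

Proof.  As DGV (`Helper79_ASO/DGV.lean`): `W = ⊤` first, then `U W` is a unit for `Rw E₀ W`. -/
def DgdStmt : Prop := ∀ (ℓ : ℕ) [Fact ℓ.Prime] (M : Ideal (integralClosure ℤ ℂ)) [M.IsMaximal],
  (ℓ : integralClosure ℤ ℂ) ∈ M → ∀ (V₀ G : Type) [CommGroup V₀] [Finite V₀] [Group G] [Finite G]
  (E₀ : Subgroup (MulAut V₀)), Fq ℓ V₀ E₀ → ∀ B : Bk (FF M) V₀ G, Sd ℓ M E₀ B →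
  ∀ W : Subgroup V₀, Rw E₀ W → ((ℓ ^ 2 * B.D W / Nat.card (B.C W) : ℂ)) ∈ RM M ∧
    ((Nat.card (B.C W) / (ℓ ^ 2 * B.D W) : ℂ)) ∈ RM M

/-- CJD: conjugation with the inertial group.

Proof.  As CJT (`Helper69_ASO/CJT.lean`): the first five claims follow from the uniqueness of the local
blocks (LBU) and need only `Sb`; the last one is for `Rw E₀ W`. -/
def CjdStmt : Prop := ∀ (ℓ : ℕ) [Fact ℓ.Prime] (M : Ideal (integralClosure ℤ ℂ)) [M.IsMaximal],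
  (ℓ : integralClosure ℤ ℂ) ∈ M → ℓ ≠ 2 → ∀ (V₀ G : Type) [CommGroup V₀] [Finite V₀] [Group G]
  [Finite G] (E₀ : Subgroup (MulAut V₀)), Fq ℓ V₀ E₀ → ∀ B : Bk (FF M) V₀ G, Sb ℓ M E₀ B →
  ∀ σ ∈ E₀, ∀ t ∈ Tg B.i.range B.g, (∀ v, t * B.i v * t⁻¹ = B.i (σ v)) → ∀ W : Subgroup V₀,
  cj t (B.b W) = B.b (W.map σ.toMonoidHom) ∧
  (∀ x, t * x * t⁻¹ ∈ B.C (W.map σ.toMonoidHom) ↔ x ∈ B.C W) ∧
  Nat.card (B.C (W.map σ.toMonoidHom)) = Nat.card (B.C W) ∧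
  (∀ x, bh B (W.map σ.toMonoidHom) (t * x * t⁻¹) = bh B W x) ∧
  (∀ c x, fc B (W.map σ.toMonoidHom) (σ c) (t * x * t⁻¹) = fc B W c x) ∧
  (Sd ℓ M E₀ B → Rw E₀ W → B.D (W.map σ.toMonoidHom) = B.D W ∧
    B.S (W.map σ.toMonoidHom) = B.S W ∧ B.U (W.map σ.toMonoidHom) = B.U W)

/-- FUD: fusion of the subpairs `(W', b W')`.

Proof.  As FUW (`Helper76_ASO/FUW.lean`), freeness is not used (only the first part of LBG, now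
LBD). -/
def FudStmt : Prop := ∀ (ℓ : ℕ) [Fact ℓ.Prime] (M : Ideal (integralClosure ℤ ℂ)) [M.IsMaximal],
  (ℓ : integralClosure ℤ ℂ) ∈ M → ∀ (V₀ G : Type) [CommGroup V₀] [Finite V₀] [Group G] [Finite G]
  (E₀ : Subgroup (MulAut V₀)), Fq ℓ V₀ E₀ → ∀ B : Bk (FF M) V₀ G, Sb ℓ M E₀ B →
  ∀ (W W' : Subgroup V₀) (w : G) (f : V₀ → V₀), (∀ v ∈ W', w * B.i v * w⁻¹ = B.i (f v)) →
  (∀ v ∈ W', f v ∈ W) → (∀ v ∈ W, ∃ v' ∈ W', f v' = v) → cj w (B.b W') = B.b W →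
  ∃ σ ∈ E₀, (∀ v ∈ W', f v = σ v) ∧ ∃ t ∈ Tg B.i.range B.g,
    (∀ v, t * B.i v * t⁻¹ = B.i (σ v)) ∧ t⁻¹ * w ∈ B.C W'

/-- FCD: `fc W x` is in the ideal of the block `b W`, for all `W`.

Proof.  `χ ∈ Irr H`, `H = C W`, `χ` not in `b W`.  As NSV (3) for `x ∉ W`: `cv (fc B W x) χ = (|H|/(|C_H(i x)|
χ(1))) χ(i(x) b^)`, `b = b (W ⊔ ⟨x⟩)` the block of `C_H(i x) = C(W ⊔ ⟨x⟩)` under `b W` (`Lc`), and this is `0`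
by `T3.SmgStmt` for the group `H` and the block `b W` (LBD).  For `x ∈ W`: `fc B W x = i(x) b^`,
`b = b W`, and `cv = λ χ(b^)/χ(1) = 0` (`i(x)` is central in `H`).  The last claim: all central characters
of both sides at the `χ ∈ Irr H` are equal. -/
def FcdStmt : Prop := ∀ (ℓ : ℕ) [Fact ℓ.Prime] (M : Ideal (integralClosure ℤ ℂ)) [M.IsMaximal],
  (ℓ : integralClosure ℤ ℂ) ∈ M → ∀ (V₀ G : Type) [CommGroup V₀] [Finite V₀] [Group G]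
  [Finite G] (E₀ : Subgroup (MulAut V₀)), Fq ℓ V₀ E₀ → ∀ B : Bk (FF M) V₀ G, Sb ℓ M E₀ B →
  ∀ W : Subgroup V₀,
  (∀ χ : G → ℂ, (∀ x, x ∉ B.C W → χ x = 0) → (fun t : B.C W => χ t) ∈ Irr (B.C W) →
    χ ∉ Ch B W → ∀ x, cv (fc B W x) χ = 0) ∧
  ∀ c x, mulF (fc B W c) (bh B W) x = fc B W c x

/-! ## 2. Character values in the local blocks -/

/-- NSD: the values of the central characters in the local blocks with `Rw E₀ W`.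

Proof.  As NSV (`Helper33_ASO/`), freeness was used only through `ix = 1` (LBD). -/
def NsdStmt : Prop := ∀ (ℓ : ℕ) [Fact ℓ.Prime] (M : Ideal (integralClosure ℤ ℂ)) [M.IsMaximal],
  (ℓ : integralClosure ℤ ℂ) ∈ M → ℓ ≠ 2 → ∀ (V₀ G : Type) [CommGroup V₀] [Finite V₀] [Group G]
  [Finite G] (E₀ : Subgroup (MulAut V₀)), Fq ℓ V₀ E₀ → ∀ B : Bk (FF M) V₀ G, Sd ℓ M E₀ B →
  ∀ W : Subgroup V₀, Rw E₀ W →
  Set.BijOn (lam B W) (Ch B W) (lin V₀) ∧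
  (∀ χ ∈ Ch B W, ∀ x, cv (fc B W x) χ = (ux B.U W x : ℚ) * lam B W χ x) ∧
  (∀ χ : G → ℂ, (∀ x, x ∉ B.C W → χ x = 0) → (fun t : B.C W => χ t) ∈ Irr (B.C W) →
    χ ∉ Ch B W → ∀ x, cv (fc B W x) χ = 0) ∧
  (∀ χ ∈ Ch B W, ∀ h ∈ B.C W, χ h = (Nat.card (B.C W) : ℂ) / (ℓ ^ 2 * B.D W) *
    ∑ᶠ x : V₀, starRingEnd ℂ (lam B W χ x) / (ux B.U W x : ℚ) * fc B W x h⁻¹) ∧
  (∀ χ ∈ Ch B W, ∃ m₀ : ℤ, ∑ᶠ s, bh B ⊤ s * χ s = B.D ⊤ * (ℓ * m₀ + B.S W) ∨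
    (B.C W = B.C ⊤ ∧ ∑ᶠ s, bh B ⊤ s * χ s = B.D ⊤)) ∧
  (∀ χ : G → ℂ, (∀ x, x ∉ B.C W → χ x = 0) → (fun t : B.C W => χ t) ∈ Irr (B.C W) →
    χ ∉ Ch B W → ∃ m₀ : ℤ, ∑ᶠ s, bh B ⊤ s * χ s = B.D ⊤ * (ℓ * m₀)) ∧
  bh B W 1 = ℓ ^ 2 * B.D W ^ 2 / Nat.card (B.C W)

/-- MUD: products of the elements `f_c`.  Proof: as MUL (`Helper3_ASO/MUL.lean`) with NSD. -/
def MudStmt : Prop := ∀ (ℓ : ℕ) [Fact ℓ.Prime] (M : Ideal (integralClosure ℤ ℂ)) [M.IsMaximal],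
  (ℓ : integralClosure ℤ ℂ) ∈ M → ℓ ≠ 2 → ∀ (V₀ G : Type) [CommGroup V₀] [Finite V₀] [Group G]
  [Finite G] (E₀ : Subgroup (MulAut V₀)), Fq ℓ V₀ E₀ → ∀ B : Bk (FF M) V₀ G, Sd ℓ M E₀ B →
  ∀ W : Subgroup V₀, Rw E₀ W → ∀ (c d : V₀) (x : G), mulF (fc B W c) (fc B W d) x =
    ((ux B.U W c * ux B.U W d / ux B.U W (c * d) : ℚ) : ℂ) * fc B W (c * d) x

/-! ## 3. Counting -/

/-- GPD: the product of the elements `f_x`, `f_(x'⁻¹)` under the conditions of `L`.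

Proof.  As GPR (`Helper82_ASO/GPR.lean`) with NSD, FUD, CJD: `Rw (p1 L ⊔ ⟨x⟩)`, `Rw (p2 L ⊔ ⟨x'⟩)` (RWD),
`σ` is determined by its values on `p2 L ⊔ ⟨x'⟩` (RWD (4)). -/
def GpdStmt : Prop := ∀ (ℓ : ℕ) [Fact ℓ.Prime] (M : Ideal (integralClosure ℤ ℂ)) [M.IsMaximal],
  (ℓ : integralClosure ℤ ℂ) ∈ M → ℓ ≠ 2 → ∀ (V₀ G : Type) [CommGroup V₀] [Finite V₀] [Group G]
  [Finite G] (E₀ : Subgroup (MulAut V₀)), Fq ℓ V₀ E₀ → ∀ B : Bk (FF M) V₀ G, Sd ℓ M E₀ B →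
  ∀ n m : ℕ, PE ℓ n m G → ∀ L : Set (V₀ × V₀ × ℤ), Rw E₀ (p1 L) → Rw E₀ (p2 L) → ∀ x x' : V₀,
  ∑ᶠ w ∈ {w : G × G | ∀ s ∈ L, w.2 * B.i s.2.1 * w.2⁻¹ = B.i s.1 * (w.1 ^ m) ^ s.2.2},
    fc B (p1 L) x w.1 * fc B (p2 L) x'⁻¹ (w.2⁻¹ * w.1⁻¹ * w.2) =
  (Nat.card (B.C (p1 L)) : ℂ) * Nat.card (B.C (p2 L)) *
    (ℓ ^ 2 * B.D (p1 L ⊔ Subgroup.zpowers x) ^ 2 /
      (Nat.card (B.C (p1 L ⊔ Subgroup.zpowers x)) : ℂ) ^ 2) *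
    {τ : MulAut V₀ | τ ∈ E₀ ∧ τ x = x' ∧ ∀ s ∈ L, τ (s.1 * x ^ s.2.2) = s.2.1}.ncard

/-- SSD: the sums `SL`.  Proof: as SSL (`Helper59_ASO/SSL.lean`) with GPD, NSD, CJD. -/
def SsdStmt : Prop := ∀ (ℓ : ℕ) [Fact ℓ.Prime] (M : Ideal (integralClosure ℤ ℂ)) [M.IsMaximal],
  (ℓ : integralClosure ℤ ℂ) ∈ M → ℓ ≠ 2 → ∀ (V₀ G : Type) [CommGroup V₀] [Finite V₀] [Group G]
  [Finite G] (E₀ : Subgroup (MulAut V₀)), Fq ℓ V₀ E₀ → ∀ B : Bk (FF M) V₀ G, Sd ℓ M E₀ B →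
  ∀ n m : ℕ, PE ℓ n m G → ∀ L : Set (V₀ × V₀ × ℤ), Rw E₀ (p1 L) → Rw E₀ (p2 L) →
  ∀ χ ∈ Ch B (p1 L), ∀ χ' ∈ Ch B (p2 L), SL B m L χ χ' =
    (Nat.card (B.C (p1 L)) : ℂ) * Nat.card (B.C (p2 L)) / ℓ ^ 2 * (B.S (p1 L) * B.S (p2 L)) *
    ∑ᶠ w ∈ {w : MulAut V₀ × V₀ | w.1 ∈ E₀ ∧ ∀ s ∈ L, w.1 (s.1 * w.2 ^ s.2.2) = s.2.1},
      lam B (p1 L) χ w.2 * starRingEnd ℂ (lam B (p2 L) χ' (w.1 w.2))

/-- WTD: the value of `W13`.  Proof: as WTH (`Helper79_ASO/WTH.lean`) with SSD, NSD. -/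
def WtdStmt : Prop := ∀ (ℓ : ℕ) [Fact ℓ.Prime] (M : Ideal (integralClosure ℤ ℂ)) [M.IsMaximal],
  (ℓ : integralClosure ℤ ℂ) ∈ M → ℓ ≠ 2 → ∀ (V₀ G : Type) [CommGroup V₀] [Finite V₀] [Group G]
  [Finite G] (E₀ : Subgroup (MulAut V₀)), Fq ℓ V₀ E₀ → ∀ B : Bk (FF M) V₀ G, Sd ℓ M E₀ B →
  ∀ n m : ℕ, PE ℓ n m G → ∀ (c d : V₀) (L : Set (SO.SS n V₀)), Rw E₀ (pL L) → Rw E₀ (qL L) →
  W13 B m c d L = ((P13 E₀ B.U c d L : ℚ) : ℂ)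

/-- W2A: `W12` in terms of the numbers `HK`.

Proof.  As W12A (`Helper63_ASO/`).  (1) No `u`.  (2) `pL L ≠ ⊥` and `EL E₀ L = ∅`: the formula
`W12 = (|C₁| |C₂|)⁻¹ ∑_u ∑_(g, h) fc W₁ c g fc W₂ d h R(g u h u⁻¹)` of the proof of W12A holds; for given `u` (with
`u i(q) u⁻¹ = i(p)` for all of `L`) the inner sum is `∑_κ (fc W₁ c * (conjugate of fc W₂ d)) (κ) R(κ)`, and
`fc W₁ c`, `fc W₂ d` are multiples of `bh W₁`, `bh W₂` (FCD), so the product is `0` unless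
`cj u (b W₂) = b W₁`; then FUD gives an element of `EL E₀ L`, a contradiction.  (If `qL L = ⊥` there is
no `u`.)  (3) `Rw E₀ (pL L)`: as W12A; if `EL E₀ L` is empty use (2), otherwise `Rw E₀ (qL L)` (RWD). -/
def W2aStmt : Prop := ∀ (ℓ : ℕ) [Fact ℓ.Prime] (M : Ideal (integralClosure ℤ ℂ)) [M.IsMaximal],
  (ℓ : integralClosure ℤ ℂ) ∈ M → ℓ ≠ 2 → ∀ (V₀ G : Type) [CommGroup V₀] [Finite V₀] [Group G]
  [Finite G] (E₀ : Subgroup (MulAut V₀)), Fq ℓ V₀ E₀ → ∀ B : Bk (FF M) V₀ G, Sb ℓ M E₀ B →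
  ∀ n m : ℕ, PE ℓ n m G → ∀ (c d : V₀) (L : Set (SO.SS n V₀)),
  (pL L = ⊥ → qL L ≠ ⊥ → W12 B m c d L = 0) ∧
  (pL L ≠ ⊥ → EL E₀ L = ∅ → W12 B m c d L = 0) ∧
  (Sd ℓ M E₀ B → Rw E₀ (pL L) → W12 B m c d L = ∑ᶠ σ ∈ EL E₀ L,
    ((ux B.U (pL L) c * ux B.U (pL L) (σ d) / ux B.U (pL L) (c * σ d) : ℚ) : ℂ) *
      HK B m (c * σ d) L)

/-- W2B: the value of `HK` for `Rw E₀ (aL κ L)`.  Proof: as W12B (`Helper10_ASO/W12B.lean`) with SSD,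
NSD. -/
def W2bStmt : Prop := ∀ (ℓ : ℕ) [Fact ℓ.Prime] (M : Ideal (integralClosure ℤ ℂ)) [M.IsMaximal],
  (ℓ : integralClosure ℤ ℂ) ∈ M → ℓ ≠ 2 → ∀ (V₀ G : Type) [CommGroup V₀] [Finite V₀] [Group G]
  [Finite G] (E₀ : Subgroup (MulAut V₀)), Fq ℓ V₀ E₀ → ∀ B : Bk (FF M) V₀ G, Sd ℓ M E₀ B →
  ∀ n m : ℕ, PE ℓ n m G → ∀ (κ : V₀) (L : Set (SO.SS n V₀)), Rw E₀ (aL κ L) →
  HK B m κ L = ((ux B.U (aL κ L) κ * N12 E₀ κ L : ℚ) : ℂ)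

end Pool.Agent.PP.SD
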