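import Pool.Agent.ASD.DefsD

/-!
# Squad ASD, statements 4: characters, fibres, pairs, the mixed types, the part at `A₂`

Complete proofs in the docstrings.  These statements hold for every `B` with `Sb` unless said
otherwise; `b W` is the local block of `C W`, `V = i(V₀)`.  All the general facts about local blocks
are in `Stmts3.lean` (`LBD`: `V` is a defect group of `b W`, `FUD`: fusion).
-/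

open scoped BigOperators

noncomputable section

namespace Pool.Agent.PP.SD

open Pool.Agent.Helper51_AWC Pool.Agent.Helper79_WRA Pool.Agent.PP Pool.Agent.PP.KF
open Pool.Agent.PP.K9 Pool.Agent.PP.K9.H97 Pool.Agent.PP.H75 Pool.Agent.PP.T3 Pool.Agent.PP.SO

attribute [local instance] Ideal.Quotient.field

/-- the conditions for `(X, u)` -/
def Lm {n : ℕ} {V₀ : Type} (L : Set (SO.SS n V₀)) : Set (V₀ × V₀ × ℤ) :=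
  {s | ∃ t ∈ L, s = (t.2.2.1, t.2.2.2, -((t.2.1 : ℕ) : ℤ))}

/-- the conditions for `(x, w)` -/
def Lq {n : ℕ} {V₀ : Type} (L : Set (SO.SS n V₀)) : Set (V₀ × V₀ × ℤ) :=
  {s | ∃ t ∈ L, s = (t.2.2.1, t.2.2.2, ((t.1 : ℕ) : ℤ))}

/-! ## 1. The local blocks as blocks, characters -/

/-- RDA: the datum of the local block of `W`.

Proof.  `B'.e = b W`, `B'.g = g`, `B'.i = i`, `B'.b W' = b (W ⊔ W')`, all restricted to `C W`; `D`, `S` arbitrary.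
The centraliser of `i(W')` in `C W` is `C (W ⊔ W')`.  `ld` is LBD.  `act`, `sur`: an element of the inertial
group of `B'` is an element `t ∈ T ∩ C W`, it acts on `V` by `σ ∈ E₀` with `σ = 1` on `W`; conversely, if
`σ ∈ St E₀ W` and `t ∈ T` acts by `σ` then `t ∈ C W`.  `lb`: `b' = b (W ⊔ W')` is a block of `C (W ⊔ W')`, over `g` (`lb` of `B`); it is
under `b W`: `e` restricted to `C (W ⊔ W')` is the sum of the restrictions of the blocks `β` of `C W` under `e`, and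
`e b' = b'`, so `β b' = b'` (restriction to `C (W ⊔ W')`) for one of them, hence `br_V(β) g = g`
(`br_V(b') g = g`), so `β = b W` (`LBU`, second claim, `Helper4_ASO`).  The formula for `fc`: the sums over the conjugates
are the same.  The last claim is the definition of `Ch`. -/
def RdaStmt : Prop := ∀ (ℓ : ℕ) [Fact ℓ.Prime] (M : Ideal (integralClosure ℤ ℂ)) [M.IsMaximal],
  (ℓ : integralClosure ℤ ℂ) ∈ M → ℓ ≠ 2 → ∀ (V₀ G : Type) [CommGroup V₀] [Finite V₀] [Group G]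
  [Finite G] (E₀ : Subgroup (MulAut V₀)), Fq ℓ V₀ E₀ → ∀ B : Bk (FF M) V₀ G, Sb ℓ M E₀ B →
  ∀ W : Subgroup V₀, Fq ℓ V₀ (St E₀ W) ∧ ∃ B' : Bk (FF M) V₀ (B.C W), Sb ℓ M (St E₀ W) B' ∧
    (∀ t, B'.e t = B.b W t) ∧ (∀ t, B'.g t = B.g t) ∧ (∀ v, (B'.i v : G) = B.i v) ∧
    (∀ W' t, B'.b W' t = B.b (W ⊔ W') t) ∧ (∀ W' t, t ∈ B'.C W' ↔ (t : G) ∈ B.C (W ⊔ W')) ∧
    (∀ W', Nat.card (B'.C W') = Nat.card (B.C (W ⊔ W'))) ∧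
    (∀ x t, fc B' ⊥ x t = fc B W x t) ∧
    (∀ χ : G → ℂ, (∀ t, t ∉ B.C W → χ t = 0) →
      (χ ∈ Ch B W ↔ (fun t : B.C W => χ t) ∈ IrrE M B'.e) ∧
      ∀ x, cv (fc B' ⊥ x) (fun t : B.C W => χ t) = cv (fc B W x) χ) ∧
    (∀ κ, L1 B' κ = L1A B W κ)

/-- W3C: `W13` in terms of characters.

Proof.  This is the first part of the proof of `WTH` (`Helper79_ASO/WTH.lean`), which needs no
freeness: `C₁ = C(pL L)`, `C₂ = C(qL L)`.  `fc B W c (g) = ∑_(χ ∈ Ch W) cv(fc B W c) χ (χ 1/|C W|) χ(g⁻¹)` for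
`g ∈ C W` by FCD, and the mean values give `χ(X) χ(x⁻¹)/χ 1`. -/
def W3cStmt : Prop := ∀ (ℓ : ℕ) [Fact ℓ.Prime] (M : Ideal (integralClosure ℤ ℂ)) [M.IsMaximal],
  (ℓ : integralClosure ℤ ℂ) ∈ M → ℓ ≠ 2 → ∀ (V₀ G : Type) [CommGroup V₀] [Finite V₀] [Group G]
  [Finite G] (E₀ : Subgroup (MulAut V₀)), Fq ℓ V₀ E₀ → ∀ B : Bk (FF M) V₀ G,
  Sb ℓ M E₀ B → ∀ n m : ℕ, PE ℓ n m G → ∀ (c d : V₀) (L : Set (SO.SS n V₀)),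
  W13 B m c d L = ((Nat.card (B.C (pL L)) : ℂ) * Nat.card (B.C (qL L)))⁻¹ ^ 2 *
    ∑ᶠ χ ∈ Ch B (pL L), ∑ᶠ χ' ∈ Ch B (qL L), cv (fc B (pL L) c) χ * cv (fc B (qL L) d) χ' *
      (SL B m (Lm L) χ χ' * starRingEnd ℂ (SL B m (Lq L) χ χ'))

/-- HKC: weighted numbers of commutators in terms of characters.

Proof.  As in the proof of `W12B` (`Helper10_ASO/W12B.lean`).  Let `g = i(κ) t`, `t ∈ C(A ⊔ ⟨κ⟩)` regular; with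
`R(g) = ∑_([x, y] = g, x ∈ C A) Φ (x^m) y`, a class function on `C A` by the two invariances
(`(x, y) ↦ (v x v⁻¹, v y v⁻¹)`), the left side is `|C A|⁻¹ ∑_g fc A κ g R(g)`.  If `x`, `[x, y] ∈ C A` then
`y x y⁻¹ ∈ C A`.  FCD: `fc A κ (g) = ∑_(χ ∈ Ch A) cv(fc A κ) χ (χ 1/|C A|) χ(g⁻¹)`.  Replace `y` by `v y`,
`v ∈ C A`: `[x, v y]⁻¹ = v (y x y⁻¹) v⁻¹ x⁻¹`, the mean value is `χ(y x y⁻¹) χ(x⁻¹)/χ 1`. -/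
def HkcStmt : Prop := ∀ (ℓ : ℕ) [Fact ℓ.Prime] (M : Ideal (integralClosure ℤ ℂ)) [M.IsMaximal],
  (ℓ : integralClosure ℤ ℂ) ∈ M → ℓ ≠ 2 → ∀ (V₀ G : Type) [CommGroup V₀] [Finite V₀] [Group G]
  [Finite G] (E₀ : Subgroup (MulAut V₀)), Fq ℓ V₀ E₀ → ∀ B : Bk (FF M) V₀ G,
  Sb ℓ M E₀ B → ∀ n m : ℕ, PE ℓ n m G → ∀ (A : Subgroup V₀) (κ : V₀) (Φ : G → G → ℂ),
  (∀ z y, ∀ v ∈ B.C A, Φ (v * z * v⁻¹) (y * v⁻¹) = Φ z y) →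
  (∀ z y, ∀ v ∈ B.C A, Φ z (v * y) = Φ z y) →
  (Nat.card (B.C (A ⊔ Subgroup.zpowers κ)) : ℂ)⁻¹ *
    ∑ᶠ t : G, bh B (A ⊔ Subgroup.zpowers κ) t *
      ∑ᶠ w ∈ {w : G × G | SO.kap w.1 w.2 = B.i κ * t ∧ w.1 ∈ B.C A}, Φ (w.1 ^ m) w.2 =
  (Nat.card (B.C A) : ℂ)⁻¹ ^ 2 * ∑ᶠ χ ∈ Ch B A, cv (fc B A κ) χ *
    ∑ᶠ w ∈ {w : G × G | w.1 ∈ B.C A ∧ w.2 * w.1 * w.2⁻¹ ∈ B.C A},
      Φ (w.1 ^ m) w.2 * (χ (w.2 * w.1 * w.2⁻¹) * χ w.1⁻¹)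

/-! ## 2. Fibres -/

/-- PSC: the sections of the local blocks.

Proof.  As in `HFPR` (`StmtsH.lean`, `Helper13_ASO`), in the group `C W`, whose block `b W` has the defect
group `V` (LBD).  `T3.DugStmt` (`Q = ⟨z⟩`, in `C W`): an `ℓ`-subgroup `P ∋ z` of `C W ∩ C(z)` with
`|P| = |V|`, good for `β`, so good for `b W`, so `P = k V k⁻¹`, `k ∈ C W` (`K9.FmgStmt`).  Replace `(z, β)` by the
conjugate with `k⁻¹`: `P = V`, `z = i(v)`, `C W ∩ C(z) = C(W ⊔ ⟨v⟩)`.  Let `γ₁` be a block of `C(V)` with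
`br_V(β) γ₁ = γ₁`; it is under `br_V(b W)`, so `g = cj n γ₁` with `n ∈ N(V) ∩ C W` (`K9.OrbStmt` in `C W`).
Conjugate with `n`: `n i(v) n⁻¹ = i(v')`, `cj n β` is a block of `C(W ⊔ ⟨v'⟩)` over `g` and under `b W`, so under `e`
(`e b W = b W` on `C W`); so it is `b (W ⊔ ⟨v'⟩)` (LBU). -/
def PscStmt : Prop := ∀ (ℓ : ℕ) [Fact ℓ.Prime] (M : Ideal (integralClosure ℤ ℂ)) [M.IsMaximal],
  (ℓ : integralClosure ℤ ℂ) ∈ M → ℓ ≠ 2 → ∀ (V₀ G : Type) [CommGroup V₀] [Finite V₀] [Group G]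
  [Finite G] (E₀ : Subgroup (MulAut V₀)), Fq ℓ V₀ E₀ → ∀ B : Bk (FF M) V₀ G, Sb ℓ M E₀ B →
  ∀ (W : Subgroup V₀) (z : G), z ∈ B.C W → El ℓ z → ∀ β : G → FF M, Bx (B.C W ⊓ Cu z) β →
  mulF (fun t : (B.C W ⊓ Cu z : Subgroup G) => B.b W t)
    (fun t : (B.C W ⊓ Cu z : Subgroup G) => β t) =
      (fun t : (B.C W ⊓ Cu z : Subgroup G) => β t) →
  ∃ g ∈ B.C W, ∃ v : V₀, z = g * B.i v * g⁻¹ ∧ β = cj g (B.b (W ⊔ Subgroup.zpowers v))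

/-- FIB: the sum over the regular elements for given `y` and given `ℓ`-part `z`.

Proof.  `R` = the subgroup generated by `i(W)` and `z` = the one generated by `y i(W') y⁻¹` and `z`
(hypothesis), `C(R) = C W ∩ C(z) = (y C W' y⁻¹) ∩ C(z)`.  Let `χ₁(x) = χ'(y⁻¹ x y)`, a character of
`y C W' y⁻¹` in the block `cj y (b W')`.  For `x ∈ C(R)` regular `χ(z x) = ∑_β χ(z x β^)`, over the blocks `β` of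
`C(R)` (the sum of the lifts is `1`), and the terms with `β` not under `b W` vanish (`z ≠ 1`: `T3.SmgStmt`
in the group `C W`, for the regular element `x` as in `gv` of `z x`; or apply it to the function
`x ↦ χ(z x)`; `z = 1`: `R = i(W)`, `χ` is in `b W`); the same for `χ₁(z⁻¹ x⁻¹)` and `cj y (b W')`.  The function
`x ↦ χ(z x β^)` on the regular elements of `C(R)` is a combination of the characters in `β`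
(restriction to `C(R)`, `z` central in `C(R)`), and for different blocks `β`, `β'` of `C(R)`
`∑_(x regular) κ(x) κ'(x⁻¹) = 0` (`K9.RotStmt`).  So if the sum is not `0` there is a block `β` of `C(R)` under
`b W` and under `cj y (b W')`.  PSC for `W`, `z`, `β`: `g`, `v`.  PSC for `W'`, `y⁻¹ z y`, `cj y⁻¹ β`: `g'`, `v'`:
`y⁻¹ z y = g' i(v') g'⁻¹`, `cj y⁻¹ β = cj g' (b (W' ⊔ ⟨v'⟩))`.  `τ = g⁻¹ y g'` maps `i(v')` to `i(v)`,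
`cj τ (b (W' ⊔ ⟨v'⟩)) = b (W ⊔ ⟨v⟩)`, and `τ i(W' ⊔ ⟨v'⟩) τ⁻¹ = g⁻¹ R g = i(W ⊔ ⟨v⟩)` (`g'` centralises `i(W')`, `g`
centralises `i(W)`).  FUD: `σ ∈ E₀`, `t ∈ T` with `t⁻¹ τ ∈ C(W' ⊔ ⟨v'⟩) ≤ C W'`.  `y = g t (t⁻¹ τ g'⁻¹)`. -/
def FibStmt : Prop := ∀ (ℓ : ℕ) [Fact ℓ.Prime] (M : Ideal (integralClosure ℤ ℂ)) [M.IsMaximal],
  (ℓ : integralClosure ℤ ℂ) ∈ M → ℓ ≠ 2 → ∀ (V₀ G : Type) [CommGroup V₀] [Finite V₀] [Group G]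
  [Finite G] (E₀ : Subgroup (MulAut V₀)), Fq ℓ V₀ E₀ → ∀ B : Bk (FF M) V₀ G, Sb ℓ M E₀ B →
  ∀ W W' : Subgroup V₀, ∀ χ ∈ Ch B W, ∀ χ' ∈ Ch B W', ∀ y z : G, El ℓ z → z ∈ B.C W →
  y⁻¹ * z * y ∈ B.C W' →
  (∀ q ∈ W', ∃ p ∈ W, ∃ k : ℤ, y * B.i q * y⁻¹ = B.i p * z ^ k) →
  (∀ p ∈ W, ∃ q ∈ W', ∃ k : ℤ, B.i p = y * B.i q * y⁻¹ * z ^ k) →
  ∑ᶠ x ∈ {x : G | x ∈ B.C W ∧ x * z = z * x ∧ Reg ℓ x}, χ (z * x) * χ' (y⁻¹ * (z * x)⁻¹ * y) ≠ 0 →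
  ∃ σ ∈ E₀, ∃ t ∈ Tg B.i.range B.g, (∀ v, t * B.i v * t⁻¹ = B.i (σ v)) ∧
    ∃ g ∈ B.C W, ∃ g' ∈ B.C W', ∃ v : V₀, y = g * t * g' ∧ z = g * B.i v * g⁻¹

/-! ## 3. Pairs -/

/-- PCH: the dictionary for a pair.

Proof.  For `W ≥ A`: `C W ≤ C A ≤ j(H)`, so `j` restricts to an isomorphism of `B'.C W` onto `B.C W`
(`j (B'.i v) = B.i v`, `j` injective), which carries `B'.b W` to `B.b W` (and vanishing outside).  So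
`bh`, `fc` (it uses only `C W`, `C (W ⊔ ⟨x⟩)`, `b (W ⊔ ⟨x⟩)`), `Ch`, `cv` (the functions `fc B W x`, `χ` vanish outside
of `C W`), and the numbers of modular characters correspond. -/
def PchStmt : Prop := ∀ (ℓ : ℕ) [Fact ℓ.Prime] (M : Ideal (integralClosure ℤ ℂ)) [M.IsMaximal],
  (ℓ : integralClosure ℤ ℂ) ∈ M → ℓ ≠ 2 → ∀ (V₀ G H : Type) [CommGroup V₀] [Finite V₀] [Group G]
  [Finite G] [Group H] [Finite H] (E₀ : Subgroup (MulAut V₀)) (A : Subgroup V₀)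
  (B : Bk (FF M) V₀ G) (B' : Bk (FF M) V₀ H) (j : H →* G), Sb ℓ M E₀ B → Sb ℓ M E₀ B' →
  Pr A B B' j → ∀ W : Subgroup V₀, A ≤ W →
  Nat.card (B'.C W) = Nat.card (B.C W) ∧ (∀ h, j h ∈ B.C W ↔ h ∈ B'.C W) ∧
  (∀ x ∈ B.C W, ∃ h, j h = x) ∧ (∀ h, bh B' W h = bh B W (j h)) ∧
  (∀ x h, fc B' W x h = fc B W x (j h)) ∧
  Set.BijOn (fun (χ : G → ℂ) (h : H) => χ (j h)) (Ch B W) (Ch B' W) ∧
  (∀ x, ∀ χ ∈ Ch B W, cv (fc B' W x) (fun h => χ (j h)) = cv (fc B W x) χ) ∧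
  ln (fun t : B'.C W => B'.b W t) = ln (fun t : B.C W => B.b W t)

/-- SLP: the sums `SL` for a pair.

Proof.  Group the terms `w = (X, u)` of `SL B m L χ χ'` (with `X ∈ C A`, `u⁻¹ X u ∈ C A`, otherwise the term
is `0`) by `u` and the `ℓ`-part `z = X ^ m` of `X` (`PE`; `X = z x`, `x = z⁻¹ X` regular, commuting with
`z`, both in `C A`): the condition `u i(q) u⁻¹ = i(p) (X^m)^k` depends only on `(u, z)`.  It implies the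
hypotheses of FIB for `y = u`, `W = W' = A` (they hold for the generators `q` of `p2 L = A` and `p` of
`p1 L = A`; the set of the `q` with the property is a subgroup, as `z` commutes with `i(A)` and with
`u i(A) u⁻¹`).  So only `u ∈ C A t C A`, `t ∈ T` inducing some `σ ∈ E₀`, contribute.  `C A ≤ j(H)`; and
`t ∈ j(H)`: by `sur` for `B'` there is `t'` in the inertial group of `B'` inducing `σ`, and `(j t')⁻¹ t` centralises `V`,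
so it is in `C A ≤ j(H)`.  `X ∈ C A ≤ j(H)`.  So the sum over `G` is the sum over `j(H)`. -/
def SlpStmt : Prop := ∀ (ℓ : ℕ) [Fact ℓ.Prime] (M : Ideal (integralClosure ℤ ℂ)) [M.IsMaximal],
  (ℓ : integralClosure ℤ ℂ) ∈ M → ℓ ≠ 2 → ∀ (V₀ G H : Type) [CommGroup V₀] [Finite V₀] [Group G]
  [Finite G] [Group H] [Finite H] (E₀ : Subgroup (MulAut V₀)) (A : Subgroup V₀), Fq ℓ V₀ E₀ →
  ∀ (B : Bk (FF M) V₀ G) (B' : Bk (FF M) V₀ H) (j : H →* G), Sb ℓ M E₀ B → Sb ℓ M E₀ B' →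
  Pr A B B' j → ∀ n m : ℕ, PE ℓ n m G → ∀ L : Set (V₀ × V₀ × ℤ), p1 L = A → p2 L = A →
  ∀ χ ∈ Ch B A, ∀ χ' ∈ Ch B A,
    SL B' m L (fun h => χ (j h)) (fun h => χ' (j h)) = SL B m L χ χ'

/-- PRT: `W13` for a pair.

Proof.  W3C for `G` and for `H` (`PE ℓ n m H` follows), PCH, SLP (`p1 (Lm L) = p1 (Lq L) = pL L`,
`p2 (Lm L) = p2 (Lq L) = qL L`). -/
def PrtStmt : Prop := ∀ (ℓ : ℕ) [Fact ℓ.Prime] (M : Ideal (integralClosure ℤ ℂ)) [M.IsMaximal],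
  (ℓ : integralClosure ℤ ℂ) ∈ M → ℓ ≠ 2 → ∀ (V₀ G H : Type) [CommGroup V₀] [Finite V₀] [Group G]
  [Finite G] [Group H] [Finite H] (E₀ : Subgroup (MulAut V₀)) (A : Subgroup V₀), Fq ℓ V₀ E₀ →
  ∀ (B : Bk (FF M) V₀ G) (B' : Bk (FF M) V₀ H) (j : H →* G), Sb ℓ M E₀ B → Sb ℓ M E₀ B' →
  Pr A B B' j → ∀ n m : ℕ, PE ℓ n m G → ∀ (c d : V₀) (L : Set (SO.SS n V₀)), pL L = A → qL L = A →
    W13 B' m c d L = W13 B m c d L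

/-- PRH: `HK` for a pair.

Proof.  HKC with `Φ z y = 1` if `y⁻¹ a y = a z ^ i` for all the `a = i(κ^k p)` of `L`, `0` otherwise (`aL κ L = A`:
the condition `a x = x a` for all of them is `x ∈ C A`); the inner sum is
`conj SL(L_A; χ, χ)`, `L_A = {(κ^k p, κ^k p, i)}`, `p1 L_A = p2 L_A = A` (`u = y⁻¹`; `χ(x⁻¹) = conj χ(x)`).  PCH, SLP. -/
def PrhStmt : Prop := ∀ (ℓ : ℕ) [Fact ℓ.Prime] (M : Ideal (integralClosure ℤ ℂ)) [M.IsMaximal],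
  (ℓ : integralClosure ℤ ℂ) ∈ M → ℓ ≠ 2 → ∀ (V₀ G H : Type) [CommGroup V₀] [Finite V₀] [Group G]
  [Finite G] [Group H] [Finite H] (E₀ : Subgroup (MulAut V₀)) (A : Subgroup V₀), Fq ℓ V₀ E₀ →
  ∀ (B : Bk (FF M) V₀ G) (B' : Bk (FF M) V₀ H) (j : H →* G), Sb ℓ M E₀ B → Sb ℓ M E₀ B' →
  Pr A B B' j → ∀ n m : ℕ, PE ℓ n m G → ∀ (κ : V₀) (L : Set (SO.SS n V₀)), aL κ L = A →
    HK B' m κ L = HK B m κ L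

/-- PRO: `W12` of pure conditions for a pair.

Proof.  For `i = k = 0` the conditions `c12` are: `p` commutes with `x` and `y`, `u q u⁻¹ = p`.  So
`x, y ∈ C A`, `u i(A) u⁻¹ = i(A)`, and the condition for `u` is invariant under `u ↦ v u v'`, `v, v' ∈ C A`.
`W12 = |C A|⁻² ∑_u ∑_(g, h) fc A c g fc A d h R(g u h u⁻¹)`, `R(k)` the number of the `(x, y)` in `C A` with
`[x, y] = k` (means over `C A` on both sides, as in `W12A`).  For fixed `u` the element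
`fc A c * (u fc A d u⁻¹)` of the group ring of `C A` is a multiple of the product of the lifts of `b A` and
`cj u (b A)` (FCD), so it is `0` unless `cj u (b A) = b A`; then by FUD `u ∈ t C A`, `t ∈ T`, so `u ∈ j(H)` (see SLP).
Everything takes place in `j(H)`; PCH. -/
def ProStmt : Prop := ∀ (ℓ : ℕ) [Fact ℓ.Prime] (M : Ideal (integralClosure ℤ ℂ)) [M.IsMaximal],
  (ℓ : integralClosure ℤ ℂ) ∈ M → ℓ ≠ 2 → ∀ (V₀ G H : Type) [CommGroup V₀] [Finite V₀] [Group G]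
  [Finite G] [Group H] [Finite H] (E₀ : Subgroup (MulAut V₀)) (A : Subgroup V₀), Fq ℓ V₀ E₀ →
  ∀ (B : Bk (FF M) V₀ G) (B' : Bk (FF M) V₀ H) (j : H →* G), Sb ℓ M E₀ B → Sb ℓ M E₀ B' →
  Pr A B B' j → ∀ n m : ℕ, PE ℓ n m G → ∀ (c d : V₀) (L : Set (SO.SS n V₀)), pL L = A → qL L = A →
  (∀ s ∈ L, (s.1 : ℕ) = 0 ∧ (s.2.1 : ℕ) = 0) → W12 B' m c d L = W12 B m c d L

/-! ## 4. Mixed types -/

/-- SMX: the sums `SL` if only the second block has inertial index one.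

Proof.  `W₁ = p1 L`, `W₂ = p2 L`, `C₁`, `C₂`.  NSD (4) for `χ'` (`Rw E₀ W₂`):
`χ'(u⁻¹ X⁻¹ u) = (|C₂|/(ℓ² D₂)) ∑_x conj λ'(x)/ux₂(x) · fc W₂ x (u⁻¹ X u)`, `λ' = lam χ'`.  Insert the definition of
`fc W₂ x`, `W' = W₂ ⊔ ⟨x⟩`: `|C W'|⁻¹ ∑_(z' ∈ C₂) bh W' (i(x)⁻¹ z'⁻¹ u⁻¹ X u z')`; substitute `u ↦ u z'⁻¹`:
`∑_((X, u), cond) χ(X) fc W₂ x (u⁻¹ X u) = (|C₂|/|C W'|) ∑_(u, s) χ(u i(x) s u⁻¹) bh W' s`, `s ∈ C W'` regular,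
`X^m = u i(x) u⁻¹`, condition `u i(q x^(-k)) u⁻¹ = i(p)`.  For given `u` let `W₂'` be the subgroup
generated by the `q x^(-k)` (it depends only on `L`, `x`); `u i(W₂') u⁻¹ = i(W₁)`, `W₂' ⊔ ⟨x⟩ = W'`.
`χᵘ(y) = χ(u y u⁻¹)` is a character of `C W₂'` in the block `cj u⁻¹ (b W₁)`, and
`∑_s bh W' s χᵘ(i(x) s) = 0` (`T3.SmgStmt` in `C W₂'`; if `x ∈ W₂'` directly) unless `b W'` is under
`cj u⁻¹ (b W₁)`; then `cj u⁻¹ (b W₁) = b W₂'` (both are blocks of `C W₂'` which are over `b W'`; `br_V` and `g`).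
By FUD `u ∈ t C W₂'`, `t ∈ T` inducing `σ ∈ E₀` with `σ(q x^(-k)) = p` for all of `L`.  Conversely, for such `σ`
all `u ∈ t C W₂'` satisfy the condition, and the value is `∑_s χ(t i(x) s t⁻¹) bh W' s =
∑_s χ(i(σ x) s) bh (σ W') s` (CJD), `σ W' = W₁ ⊔ ⟨σ x⟩`.  `|C W₂'| = |C₁|` elements `u` for every `σ`, and every
`u` belongs to the `|St E₀ W₁|` elements `σ` of one coset of `St E₀ W₂'` (`|St E₀ W₂'| = |St E₀ W₁|`). -/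
def SmxStmt : Prop := ∀ (ℓ : ℕ) [Fact ℓ.Prime] (M : Ideal (integralClosure ℤ ℂ)) [M.IsMaximal],
  (ℓ : integralClosure ℤ ℂ) ∈ M → ℓ ≠ 2 → ∀ (V₀ G : Type) [CommGroup V₀] [Finite V₀] [Group G]
  [Finite G] (E₀ : Subgroup (MulAut V₀)), Fq ℓ V₀ E₀ → ∀ B : Bk (FF M) V₀ G, Sd ℓ M E₀ B →
  ∀ n m : ℕ, PE ℓ n m G → ∀ L : Set (V₀ × V₀ × ℤ), Rw E₀ (p2 L) → ∀ χ ∈ Ch B (p1 L),
  ∀ χ' ∈ Ch B (p2 L), SL B m L χ χ' =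
    (Nat.card (B.C (p1 L)) : ℂ) * (Nat.card (B.C (p2 L)) : ℂ) ^ 2 /
      (ℓ ^ 2 * B.D (p2 L) * Nat.card (St E₀ (p1 L))) *
    ∑ᶠ w ∈ {w : MulAut V₀ × V₀ | w.1 ∈ E₀ ∧ ∀ s ∈ L, w.1 (s.2.1 * (w.2 ^ s.2.2)⁻¹) = s.1},
      starRingEnd ℂ (lam B (p2 L) χ' w.2) / (ux B.U (p2 L) w.2 : ℚ) *
        (Nat.card (B.C (p2 L ⊔ Subgroup.zpowers w.2)) : ℂ)⁻¹ *
        ∑ᶠ s, bh B (p1 L ⊔ Subgroup.zpowers (w.1 w.2)) s * χ (B.i (w.1 w.2) * s)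

/-- MXA: `W13` if `c ∈ pL L` and the block of `qL L` has inertial index one.

Proof.  `W₁ = pL L`, `W₂ = qL L`, `k₁ = |St E₀ W₁|`.  W3C and SMX for `Lm L`, `Lq L`.  For `χ ∈ Ch W₁` let
`V_x(χ) = ∑_s bh (W₁ ⊔ ⟨x⟩) s χ(i(x) s)`.  `cv (fc W₁ c) χ = χ(i c)/χ 1` (`c ∈ W₁`), `i(c)` is central in `C₁`, so
`(χ(i c)/χ 1) V_x(χ) = V_(c x)(χ)`.  The sum over `χ` is `∑_χ V_(c x)(χ) conj V_(x')(χ)`, `x = σ₋ x₋`, `x' = σ₊ x₊`;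
`W₁ ⊔ ⟨x⟩ = σ₋ (W₂ ⊔ ⟨x₋⟩)` satisfies `Rw`, the same for `x'`.  By `T3.Co2Stmt`, `FUD` in `C₁` it is `0`
unless `x' = h (c x)` for some `h ∈ St E₀ W₁` (unique, `Rw`), and then by `T3.Co1Stmt` (or: the sum of the
`|κ(y b^)|²` is `|C(W')| b^(1)`) it is `|C W'| bh W' 1 = ℓ² (D W')²`, `W' = W₁ ⊔ ⟨x⟩` (NSD (7)).  The sum over `χ'` of
`cv (fc W₂ d) χ' conj λ'(x₋) λ'(x₊)` is `ux₂(d) ℓ²` if `x₋ = d x₊`, `0` otherwise (NSD).  As in SSL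
`D W'/|C W'| = ux₂(x₋) ε₋ D₂/|C₂| = ux₂(x₊) ε₊ D₂/|C₂|` (CJD), `ε₋ = ε₊ = ±1` (`x₋ ∈ W₂` iff
`|C(W₂ ⊔ ⟨x₋⟩)| ...`: `W₂ ⊔ ⟨x₋⟩` and `W₂ ⊔ ⟨x₊⟩` have the same order).  So
`W13 = ux₂(d) k₁⁻² #{(σ₋, x₋, σ₊, x₊, h)}` with `σ₋(q x₋^j) = p`, `σ₊(q x₊^(-i)) = p`, `x₋ = d x₊`,
`σ₊ x₊ = h(c σ₋ x₋)`.  Put `X = σ₋ x₋`, `σ₁ = σ₋⁻¹`, `σ₂ = σ₊⁻¹ h`: `σ₁(p X^(-j)) = q`,
`σ₂(p (c X)^i) = q` (`h p = p`), `σ₁ X = d σ₂(c X)`: for every `h` the elements of `N13`. -/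
def MxaStmt : Prop := ∀ (ℓ : ℕ) [Fact ℓ.Prime] (M : Ideal (integralClosure ℤ ℂ)) [M.IsMaximal],
  (ℓ : integralClosure ℤ ℂ) ∈ M → ℓ ≠ 2 → ∀ (V₀ G : Type) [CommGroup V₀] [Finite V₀] [Group G]
  [Finite G] (E₀ : Subgroup (MulAut V₀)), Fq ℓ V₀ E₀ → ∀ B : Bk (FF M) V₀ G, Sd ℓ M E₀ B →
  ∀ n m : ℕ, PE ℓ n m G → ∀ (c d : V₀) (L : Set (SO.SS n V₀)), c ∈ pL L → pL L ≠ ⊥ →
  Rw E₀ (qL L) →
  W13 B m c d L = (((Nat.card (St E₀ (pL L)) : ℚ)⁻¹ * P13 E₀ B.U c d L : ℚ) : ℂ)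

/-- MXB: the same with the two sides exchanged.

Proof.  The substitution `(x, y, u) ↦ (x̂, ŷ, û)`: in the notation of `WTH` `(x, w)`, `(X, u)` with
`g = x X⁻¹`, `h = (u⁻¹ X u)(w⁻¹ x⁻¹ w)` go to `x̂ = u⁻¹ X u`, `ŵ = u⁻¹`, `X̂ = w⁻¹ x w`, `û = w⁻¹`: then
`h = x̂ X̂⁻¹`, `g = (û⁻¹ X̂ û)(ŵ⁻¹ x̂⁻¹ ŵ)`, and the conditions of `(i, j, p, q)` become those of
`(j, i, q, p)`.  So `W13 B m c d L = W13 B m d c L^`, `L^ = {(j, i, q, p)}` (or use W3C: `SL (Lm L) χ χ'` is the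
conjugate of `SL (Lq L^) χ' χ`), and `N13 E₀ c d L = N13 E₀ d c L^` (`(σ₁, σ₂, X) ↦ (σ₂⁻¹, σ₁⁻¹, σ₂(c X))`:
`σ₂⁻¹(σ₂ (c X)) = c X`, and `c σ₁⁻¹(d σ₂(c X)) = c X`).  MXA. -/
def MxbStmt : Prop := ∀ (ℓ : ℕ) [Fact ℓ.Prime] (M : Ideal (integralClosure ℤ ℂ)) [M.IsMaximal],
  (ℓ : integralClosure ℤ ℂ) ∈ M → ℓ ≠ 2 → ∀ (V₀ G : Type) [CommGroup V₀] [Finite V₀] [Group G]
  [Finite G] (E₀ : Subgroup (MulAut V₀)), Fq ℓ V₀ E₀ → ∀ B : Bk (FF M) V₀ G, Sd ℓ M E₀ B →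
  ∀ n m : ℕ, PE ℓ n m G → ∀ (c d : V₀) (L : Set (SO.SS n V₀)), d ∈ qL L → qL L ≠ ⊥ →
  Rw E₀ (pL L) →
  W13 B m c d L = (((Nat.card (St E₀ (qL L)) : ℚ)⁻¹ * P13 E₀ B.U c d L : ℚ) : ℂ)

/-- W2X: `W12` if `c` and all `σ(d)` are in `pL L`.

Proof.  As `W12A` (`Helper63_ASO`), `W₁ = pL L`, `W₂ = qL L`: `W12 = (|C₁| |C₂|)⁻¹ ∑_u ∑_κ (fc W₁ c * (u fc W₂ d u⁻¹)) κ R(κ)`,
and only the `u` with `cj u (b W₂) = b W₁` count (FCD), `u ∈ t C₂`, `t` inducing some `σ ∈ EL` (FUD); every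
`σ ∈ EL` belongs to `|C₂|` elements `u` and every `u` to the `|St E₀ W₂|` elements of a coset `σ (St E₀ W₂)`
(`W₂` is generated by the `q`).  `u fc W₂ d u⁻¹ = fc W₁ (σ d)` (CJD).  As `c`, `σ d ∈ W₁`:
`fc W₁ c (g) = bh W₁ (i(c)⁻¹ g)`, `fc W₁ c * fc W₁ (σ d) = fc W₁ (c σ d)`.  The rest is as in `W12A`.  If
`EL = ∅` both sides are `0`. -/
def W2xStmt : Prop := ∀ (ℓ : ℕ) [Fact ℓ.Prime] (M : Ideal (integralClosure ℤ ℂ)) [M.IsMaximal],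
  (ℓ : integralClosure ℤ ℂ) ∈ M → ℓ ≠ 2 → ∀ (V₀ G : Type) [CommGroup V₀] [Finite V₀] [Group G]
  [Finite G] (E₀ : Subgroup (MulAut V₀)), Fq ℓ V₀ E₀ → ∀ B : Bk (FF M) V₀ G,
  Sb ℓ M E₀ B → ∀ n m : ℕ, PE ℓ n m G → ∀ (c d : V₀) (L : Set (SO.SS n V₀)), pL L ≠ ⊥ →
  c ∈ pL L → (∀ σ ∈ EL E₀ L, σ d ∈ pL L) →
  W12 B m c d L = (Nat.card (St E₀ (qL L)) : ℂ)⁻¹ * ∑ᶠ σ ∈ EL E₀ L, HK B m (c * σ d) L

/-! ## 5. Labels -/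

/-- CND: integrality of the weights of the frames.

Proof.  `k = kE E₀ c`, prime to `ℓ` (`Fq.cp`).  (a) `full = true`: as in `CNG` (`Helper35_ASO/CNG.lean`), the
additional factor `k⁻¹`.  (b) `full = false`: `H = C ⟨c⟩`, `PRJ` (`SO.PrjStmt`) for `f = ℓ h`,
`h(s) = bh ⟨c⟩ s - (k |C ⊤|)⁻¹ ∑_(z ∈ H) bh ⊤ (z⁻¹ s z)`.  Let `ψ ∈ Irr H`,
`|H|⁻¹ ∑ f ψ = (ℓ/|H|)(∑ bh ⟨c⟩ s ψ s - (|H|/(k |C ⊤|)) ∑ bh ⊤ s ψ s)`.  As in `NSV`: the restriction of `ψ` to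
`C(V)` is `∑ m_κ κ`, the characters of `g` are `κ_μ`, `μ ∈ lin V₀`, of degree `D ⊤`; if `m_μ ≠ 0` then `μ = ν` on
`⟨c⟩`, `ν` the central character of `ψ` on `i(⟨c⟩)`; `V_x(ψ) = ∑_μ m_μ μ(x)`; `∑ bh ⊤ s ψ(s) = D ⊤ V_1`.
*`ψ` not in `b ⟨c⟩`:* the first sum is `0`, `V_x(ψ) = 0` for `x ∉ ⟨c⟩` (`T3.SmgStmt` in `H`), so `m_μ` is constant on
the `ℓ` characters `μ` with `μ = ν` on `⟨c⟩`, `V_1 = ℓ m₀`, and the value is `- k⁻¹ m₀ ℓ² D ⊤/|C ⊤|`, in `RM M` (DGD for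
`⊤`, `Rw E₀ ⊤`).
*`ψ` in `b ⟨c⟩`:* the first sum is `ψ 1`, and with `r = |H| D ⊤/(|C ⊤| ψ 1)` the value is
`(ℓ ψ 1/|H|) (1 - r V_1/k)`.  `r V_x = cv (fc B ⟨c⟩ x) ψ` for `x ∉ ⟨c⟩` is in `RM M` with residue `|St E₀ ⟨c⟩| = k`:
`SO.HOmrStmt` for the datum of `C ⟨c⟩` (`RDA`: `Es (St E₀ ⟨c⟩) x = 1` for `x ∉ ⟨c⟩`, because it fixes
`V₀`).  Such an `x` is regular for the datum of `C ⟨c⟩`, so by `SO.HTzStmt` for this datum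
`ℓ² ψ 1/|H|` and its inverse are in `RM M`; with DGD: `r` and `r⁻¹` are in `RM M`.  So
`V_x ∈ RM M`, and `V_x - V_1 = ∑ m_μ (μ(x) - 1)` has residue `0`; so `r V_1` is a rational number in `RM M`
with residue `k`, `1 - r V_1/k = ℓ q`, `q ∈ Rl ℓ`, and the value is `(ℓ² ψ 1/|H|) q`. -/
def CndStmt : Prop := ∀ (ℓ : ℕ) [Fact ℓ.Prime] (M : Ideal (integralClosure ℤ ℂ)) [M.IsMaximal],
  (ℓ : integralClosure ℤ ℂ) ∈ M → ℓ ≠ 2 → ∀ (V₀ G : Type) [CommGroup V₀] [Finite V₀] [Group G]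
  [Finite G] (E₀ : Subgroup (MulAut V₀)), Fq ℓ V₀ E₀ → ∀ B : Bk (FF M) V₀ G, Sd ℓ M E₀ B →
  ∀ c : V₀, c ≠ 1 → ∀ (f : Bool) (s : G), s ∈ B.C (frm c f) →
    (Nat.card (frm c f) : ℂ) * (Nat.card (B.C (frm c f)) * wtD E₀ B c f s) /
      Nat.card (B.C (frm c f) ⊓ Cu s : Subgroup G) ∈ RM M

/-- LAD: integrality of the total sum.  Proof.  As `LAC` (`Helper10_ASO/LAC.lean`), with CND. -/
def LadStmt : Prop := ∀ (ℓ : ℕ) [Fact ℓ.Prime] (M : Ideal (integralClosure ℤ ℂ)) [M.IsMaximal],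
  (ℓ : integralClosure ℤ ℂ) ∈ M → ℓ ≠ 2 → ∀ (V₀ G : Type) [CommGroup V₀] [Finite V₀] [Group G]
  [Finite G] (E₀ : Subgroup (MulAut V₀)), Fq ℓ V₀ E₀ → ∀ B : Bk (FF M) V₀ G, Sd ℓ M E₀ B →
  ∀ (n m : ℕ) (c d : V₀), c ≠ 1 → d ≠ 1 → ∀ F₁₃ F₁₂ : Set (SO.SS n V₀) → ℚ,
  Rel ℓ n m B.i c d F₁₃ F₁₂ → TSD E₀ B m c d F₁₃ F₁₂ ∈ RM M

/-- LBX: the total sum in terms of the weighted numbers.

Proof.  As `LBS` (`Helper62_ASO/LBS.lean`): if `pL L ≤ ⟨c⟩` the two terms with `bh ⊤` cancel and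
`|C ⟨c⟩|⁻¹ ∑ bh ⟨c⟩ s Y(s)` remains; if not, only `full = true` remains, `pL L ⊔ ⟨c⟩ = ⊤`, with the factor
`(kE E₀ c)⁻¹ = kf E₀ (pL L) c`. -/
def LbxStmt : Prop := ∀ (ℓ : ℕ) [Fact ℓ.Prime] (M : Ideal (integralClosure ℤ ℂ)) [M.IsMaximal],
  (ℓ : integralClosure ℤ ℂ) ∈ M → ℓ ≠ 2 → ∀ (V₀ G : Type) [CommGroup V₀] [Finite V₀] [Group G]
  [Finite G] (E₀ : Subgroup (MulAut V₀)), Fq ℓ V₀ E₀ → ∀ B : Bk (FF M) V₀ G, Sb ℓ M E₀ B →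
  ∀ (n m : ℕ) (c d : V₀), c ≠ 1 → d ≠ 1 → ∀ F₁₃ F₁₂ : Set (SO.SS n V₀) → ℚ,
  TSD E₀ B m c d F₁₃ F₁₂ = ∑ᶠ L : Set (SO.SS n V₀),
    ((mob F₁₃ L : ℚ) * ((kf E₀ (pL L) c * kf E₀ (qL L) d : ℚ) : ℂ) * W13 B m c d L +
      (mob F₁₂ L : ℚ) * ((kf E₀ (pL L) c * kf E₀ (qL L) d : ℚ) : ℂ) * W12 B m c d L)

/-! ## 6. The part at `A₂ = ⟨w⟩` -/

/-- the conditions `(i, k, (κ w)^(-k), (σ⁻¹(κ w))^(-k))` -/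
def TP {V₀ : Type} [CommGroup V₀] (n : ℕ) (κ w : V₀) (σ : MulAut V₀) : Set (SO.SS n V₀) :=
  {s | s.2.2.1 = (κ * w)⁻¹ ^ (s.2.1 : ℕ) ∧ s.2.2.2 = (σ⁻¹ (κ * w))⁻¹ ^ (s.2.1 : ℕ)}

section t5

variable {V₀ G : Type} [CommGroup V₀] [Group G] {M : Ideal (integralClosure ℤ ℂ)} [M.IsMaximal]

/-- the sum over the sets `L` of conditions in `TP` -/
def T5 {n : ℕ} (B : Bk (FF M) V₀ G) (m : ℕ) (κ w : V₀) (σ : MulAut V₀)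
    (F : Set (SO.SS n V₀) → ℚ) : ℂ :=
  ∑ᶠ L ∈ {L : Set (SO.SS n V₀) | L ⊆ TP n κ w σ ∧ pL L ≠ ⊥}, (mob F L : ℚ) * HK B m κ L

/-- the weighted number of the `(x, y)` with `x` in the centraliser of `w` and
`y⁻¹ w⁻¹ y = w⁻¹ z ^ i₀`, `z ^ i₀ ≠ 1`, `z` the `ℓ`-part of `x` -/
def nI (ℓ : ℕ) (B : Bk (FF M) V₀ G) (m : ℕ) (κ w : V₀) (i₀ : ℕ) : ℂ :=
  (Nat.card (B.C ⊤) : ℂ)⁻¹ * ∑ᶠ t : G, bh B ⊤ t *
    {x : G × G | SO.kap x.1 x.2 = B.i κ * t ∧ B.i w * x.1 = x.1 * B.i w ∧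
      x.2⁻¹ * (B.i w)⁻¹ * x.2 = (B.i w)⁻¹ * (x.1 ^ m) ^ i₀ ∧ (x.1 ^ m) ^ i₀ ≠ 1 ∧
      (x.1 ^ m) ^ ℓ = 1}.ncard

end t5

/-- TFA: the evaluation of `T5`.

Proof.  `A = ⟨w⟩`, `p₀ = (κ w)⁻¹`, `q₀ = (σ⁻¹(κ w))⁻¹`, `F = F₁₂`, `v₀ = x₁(c⁻¹) x₂(d⁻¹)/ℓ²`.  For `L ⊆ TP` the elements
`κ^k p` are the `w^(-k)`; if `pL L ≠ ⊥` then `aL κ L = A`, `A ⊔ ⟨κ⟩ = ⊤`.  So
`T5 = |C ⊤|⁻¹ ∑_t bh ⊤ t ∑_([x, y] = i(κ) t) ∑_(L ⊆ τ(x, y), pL L ≠ ⊥) mob F L`, where `τ(x, y)` is the set of the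
`s ∈ TP` with `w^(-k) x = x w^(-k)`, `y⁻¹ w^(-k) y = w^(-k) (x^m)^i`; by MBI the inner sum is
`F(τ) - F(τ ∩ {ℓ ∣ k})`, and `F(τ ∩ {ℓ ∣ k}) = v₀` by `z12` (`p = q = 1` there, `ρ 1 = 0`).  It is `0` unless
`w x = x w` and some `(i', 1, p₀, q₀) ∈ τ` (if `(i, k) ∈ τ`, `ℓ ∤ k`, take the power `k'`, `k k' ≡ 1` mod `ℓ`; `w`
commutes with `x^m`; `(x^m)^(i k')` depends only on `i k'` modulo `n`).
(I) `y w = w y`: then `τ = {(i, k) : (x^m)^i = 1}`, `prod` and `K1` give `F(τ) = v₀ - x₁(p₀) x₂(q₀)/ℓ²`; the weighted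
number of these `(x, y)` (the pairs in `C A` with `[x, y] = i(κ) t`) is `∑_(χ ∈ Ch A) cv (fc A κ) χ = L1A`: HKC with
`Φ z y = 1` for `y ∈ C A` and `z ∈ C A`, `0` otherwise; the inner sum is
`∑_(x, y ∈ C A) χ(y x y⁻¹) χ(x⁻¹) = |C A|²`.
(II) `y w ≠ w y`.  `F(τ(x, y)) - v₀ =: f(x^m, y)` depends on `(x^m, y)` only and is invariant as in HKC.  HKC and
FIB (for `y⁻¹`, `W = W' = A`, `z = x^m`, `χ = χ'`, conjugated): for given `(x^m, y)` the sum over the regular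
parts is `0` unless `x^m` is conjugate into `V`, so `(x^m)^ℓ = 1`.  So the terms with `(x^m)^ℓ ≠ 1` may be
omitted, and in the others `(x^m)^(i') ≠ 1`, so `i₀ = i' mod ℓ ≠ 0` and `τ = {(i, k) : i ≡ i₀ k mod ℓ}`, the set
of `np`.  `nI` is the weighted number of these `(x, y)`. -/
def TfaStmt : Prop := ∀ (ℓ : ℕ) [Fact ℓ.Prime] (M : Ideal (integralClosure ℤ ℂ)) [M.IsMaximal],
  (ℓ : integralClosure ℤ ℂ) ∈ M → ℓ ≠ 2 → ∀ (V₀ G : Type) [CommGroup V₀] [Finite V₀] [Group G]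
  [Finite G] (E₀ : Subgroup (MulAut V₀)), Fq ℓ V₀ E₀ → ∀ B : Bk (FF M) V₀ G, Sb ℓ M E₀ B →
  ∀ n m r : ℕ, 0 < r → n = ℓ ^ r → PE ℓ n m G → ∀ (ρ₁ ρ₂ : V₀ → ZMod ℓ) (x₁ x₂ : V₀ → ℤ)
  (c d : V₀) (F₁₃ F₁₂ : Set (SO.SS n V₀) → ℚ) (K : Set (Fin n × V₀ × V₀) → ℚ), Hm ρ₁ → Hm ρ₂ →
  FY ℓ n ρ₁ ρ₂ x₁ x₂ c d F₁₃ F₁₂ K → ∀ (κ w : V₀) (σ : MulAut V₀), w ≠ 1 →
  κ ∉ Subgroup.zpowers w →
  T5 B m κ w σ F₁₂ = -(((x₁ (κ * w)⁻¹ * x₂ (σ⁻¹ (κ * w))⁻¹ : ℤ) : ℂ) / ℓ ^ 2) *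
      L1A B (Subgroup.zpowers w) κ +
    ∑ i₀ ∈ Finset.Icc 1 (ℓ - 1), ((F₁₂ {s | s.2.2.1 = (κ * w)⁻¹ ^ (s.2.1 : ℕ) ∧
      s.2.2.2 = (σ⁻¹ (κ * w))⁻¹ ^ (s.2.1 : ℕ) ∧ (s.1 : ℕ) ≡ i₀ * (s.2.1 : ℕ) [MOD ℓ]} -
      (x₁ c⁻¹ * x₂ d⁻¹ : ℤ) / (ℓ : ℚ) ^ 2 : ℚ) : ℂ) * nI ℓ B m κ w i₀

/-- TFN: the numbers `nI`.

Proof.  (i) For fixed `t` let `Z` be the set in the definition of `nI`; `V` acts on it by conjugation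
(`t ∈ C(V)`, `V` is abelian).  `y` does not commute with `w`, so the stabilisers do not contain `A = ⟨w⟩`: they
are `1` or lines `S ≠ A`, and `|Z| = e + ∑_S |Z_S|`, `e` the number of the elements with trivial stabiliser,
divisible by `ℓ²`, `Z_S` the elements of `Z` in `C(S)` (with stabiliser exactly `S`).  `t ↦ e` is a class
function on `C ⊤`; `|C ⊤|⁻¹ ∑_t bh ⊤ t e(t)` is the sum over the classes of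
`(ℓ² bh ⊤ t/|C ⊤ ∩ C(t)|)(e/ℓ²) ∈ RM M` (CND (a), as in `SO.PrjStmt`; the factor `kE` is a unit).  `Z_S`: the
`(x, y)` in `C(S)` with `[x, y] = i(κ) t`, `x w = w x`, `y⁻¹ w⁻¹ y = w⁻¹ (x^m)^(i₀)` are the pairs of `HK B m κ L'` for
`L' = {(i₀, 1, p₀, 1)} ∪ {(0, 0, s, 1) : s ∈ S}`, `p₀ = (κ w)⁻¹` (the components `q` do not matter in `HK`),
`aL κ L' = A ⊔ S = ⊤`, those with in addition `(x^m)^(i₀) = 1`, i.e. `y w = w y`, the ones for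
`L'' = L' ∪ {(0, 1, p₀, 1)}` (if `i₀` is not smaller than `n` take its rest modulo `ℓ`; `n > 1` is a power of
`ℓ`); the weighted numbers are integers by W2B (`Rw E₀ ⊤`, `ux ⊤ = 1`).  The condition `(x^m)^ℓ = 1` may be
added: by HKC (for `A = ⊤`) and FIB the pairs with `(x^m)^ℓ ≠ 1` contribute `0`.
(ii) The sets are equal: `w` commutes with `z = x^m`, `z^ℓ = 1`, `w^ℓ = 1`; raise the equation to the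
power `j`, and to a power `j'` with `j j' ≡ 1` modulo `ℓ`.
(iii) HKC for `A = ⟨w⟩` (the conditions are of the form `Φ (x^m) y`) and FIB: for given `(x^m, y)` the sum over
the regular parts is `0` unless `y ∈ C A t C A` with `t` inducing `σ ∈ E₀`, `σ w = w`; then `y ∈ C A` and
`(x^m)^(i₀) = 1`, a contradiction. -/
def TfnStmt : Prop := ∀ (ℓ : ℕ) [Fact ℓ.Prime] (M : Ideal (integralClosure ℤ ℂ)) [M.IsMaximal],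
  (ℓ : integralClosure ℤ ℂ) ∈ M → ℓ ≠ 2 → ∀ (V₀ G : Type) [CommGroup V₀] [Finite V₀] [Group G]
  [Finite G] (E₀ : Subgroup (MulAut V₀)), Fq ℓ V₀ E₀ → ∀ B : Bk (FF M) V₀ G, Sd ℓ M E₀ B →
  ∀ n m r : ℕ, 0 < r → n = ℓ ^ r → PE ℓ n m G → ∀ κ w : V₀, w ≠ 1 → κ ∉ Subgroup.zpowers w →
  (∀ i₀ : ℕ, nI ℓ B m κ w i₀ ∈ RM M) ∧
  (∀ j i₀ i₁ : ℕ, ¬ ℓ ∣ j → i₁ ≡ j * i₀ [MOD ℓ] → nI ℓ B m κ (w ^ j) i₁ = nI ℓ B m κ w i₀) ∧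
  ((∀ σ ∈ E₀, σ w = w) → ∀ i₀ : ℕ, nI ℓ B m κ w i₀ = 0)

/-- TFH: the sum of the central characters of `b A` at `f_κ` is divisible by `ℓ`.

Proof.  `B_A` the datum of `C A` (`RDA`), `E_A = St E₀ A`.  `L1A B A κ = L1 B_A κ`, a rational number in
`Rl ℓ` (`SO.HL12Stmt`), and every term has the residue `nE E_A κ = |E_A|` (`SO.HOmrStmt`; an element of `E_A`
which fixes `κ` fixes `V₀`), so the residue is `|E_A| k`, `k` the number of the characters in `b A`.  `KLD`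
(`Stmts8.lean`) for `B_A`: `|E_A| k = ∑_v |Es E_A v| ln (b (A ⊔ ⟨v⟩))`; the `ℓ` terms with `v ∈ A` are equal, and for
`v ∉ A` they are `1` (`Es E_A v = 1`; `A ⊔ ⟨v⟩ = ⊤`, `ln g = 1`, `KLD`), `ℓ² - ℓ` of them.  So `ℓ ∣ |E_A| k`. -/
def TfhStmt : Prop := ∀ (ℓ : ℕ) [Fact ℓ.Prime] (M : Ideal (integralClosure ℤ ℂ)) [M.IsMaximal],
  (ℓ : integralClosure ℤ ℂ) ∈ M → ℓ ≠ 2 → ∀ (V₀ G : Type) [CommGroup V₀] [Finite V₀] [Group G]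
  [Finite G] (E₀ : Subgroup (MulAut V₀)), Fq ℓ V₀ E₀ → ∀ B : Bk (FF M) V₀ G, Sb ℓ M E₀ B →
  ∀ (A : Subgroup V₀) (κ : V₀), Nat.card A = ℓ → κ ∉ A → L1A B A κ / ℓ ∈ RM M

/-- TFV: sums of the numbers `T5` over `w`.

Proof.  `p_w = (κ w)⁻¹`, `q_w = (σ⁻¹(κ w))⁻¹`; TFA, `np`: `F₁₂(..) - v₀ = - 12 x₁(p_w) x₂(q_w)/(ℓ² i₀) + z/ℓ`.  The first term
of TFA times `ℓ` is `- x₁ x₂ L1A/ℓ ∈ RM M` (TFH).  The terms with `z` are clear (TFN (i)).  There remains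
`(12/ℓ) S`, `S = ∑_w u(w) x₁(p_w) x₂(q_w) ∑_(i₀) nI(w, i₀)/i₀`.  If `E₀` acts trivially on `A₂` all `nI` are `0` (TFN
(iii)).  Otherwise there is `τ ≠ 1` in `E₀` with `τ = 1` on `A₁` (`Dx.cs`); `τ w = w ^ j` on `A₂` with `ℓ ∤ j`,
`j ≢ 1` modulo `ℓ` (`τ ≠ 1`).  Modulo `ℓ` the number `x₁(p_w) = ρ₁(p_w) = ρ₁(κ⁻¹)` does not depend on `w` (`ρ₁ = 0` on
`A₂`), the same for `x₂(q_w)` (`σ⁻¹ w ∈ A₂`).  So `S ≡ C S'`, `S' = ∑_w u(w) ∑_(i₀) nI(w, i₀)/i₀`, modulo `ℓ RM M`.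
Substitute `w ↦ w ^ j = τ w` (`u(τ w) = u(w)`): `S' = ∑_w u(w) ∑_(i₁) nI(w^j, i₁)/i₁`, and with `i₁ ≡ j i₀` (TFN (ii))
`= ∑_w u(w) ∑_(i₀) nI(w, i₀)/i₁ ≡ S'/j`.  So `(j - 1) S' ∈ ℓ RM M`, `S' ∈ ℓ RM M`. -/
def TfvStmt : Prop := ∀ (ℓ : ℕ) [Fact ℓ.Prime] (M : Ideal (integralClosure ℤ ℂ)) [M.IsMaximal],
  (ℓ : integralClosure ℤ ℂ) ∈ M → ℓ ≠ 2 → ∀ (V₀ G : Type) [CommGroup V₀] [Finite V₀] [Group G]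
  [Finite G] (E₀ : Subgroup (MulAut V₀)) (A₁ A₂ : Subgroup V₀), Dx ℓ E₀ A₁ A₂ →
  ∀ B : Bk (FF M) V₀ G, Sd ℓ M E₀ B → ∀ n m r : ℕ, 0 < r → n = ℓ ^ r → PE ℓ n m G →
  ∀ (ρ₁ ρ₂ : V₀ → ZMod ℓ) (x₁ x₂ : V₀ → ℤ) (c d : V₀) (F₁₃ F₁₂ : Set (SO.SS n V₀) → ℚ)
  (K : Set (Fin n × V₀ × V₀) → ℚ), Hm ρ₁ → Hm ρ₂ → Lf ρ₁ x₁ → Lf ρ₂ x₂ →
  (∀ v ∈ A₂, ρ₁ v = 0 ∧ ρ₂ v = 0) → FY ℓ n ρ₁ ρ₂ x₁ x₂ c d F₁₃ F₁₂ K →
  ∀ (κ : V₀) (σ : MulAut V₀), κ ∉ A₂ → σ ∈ E₀ → ∀ u : V₀ → ℚ,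
  (∀ w ∈ A₂, u w ∈ SOR.Rl ℓ) → (∀ τ ∈ St E₀ A₁, ∀ w ∈ A₂, u (τ w) = u w) →
  (ℓ : ℂ) * ∑ᶠ w ∈ {w : V₀ | w ∈ A₂ ∧ w ≠ 1}, (u w : ℂ) * T5 B m κ w σ F₁₂ ∈ RM M

end Pool.Agent.PP.SD
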