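import Pool.Agent.ASD.Stmts4

/-!
# Squad ASD, statements 5: the relation, the comparison of groups, the arithmetic

Complete proofs in the docstrings.  `V₀ = A₁ × A₂`, `E₀` diagonal (`Dx`).  `Of A₁ A₂ W`: `W` is not `⊥`, `A₁`,
`A₂` (it is `⊤` or a line off the axes); then `Rw E₀ W` (DIX (1)).
-/

open scoped BigOperators

noncomputable section

namespace Pool.Agent.PP.SD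

open Pool.Agent.Helper51_AWC Pool.Agent.Helper79_WRA Pool.Agent.PP Pool.Agent.PP.KF
open Pool.Agent.PP.K9 Pool.Agent.PP.K9.H97 Pool.Agent.PP.H75 Pool.Agent.PP.T3 Pool.Agent.PP.SO

attribute [local instance] Ideal.Quotient.field

/-! ## 0. Definitions -/

section defs

variable {V₀ : Type} [CommGroup V₀]

/-- `W` is not `⊥`, `A₁`, `A₂`. -/
def Of (A₁ A₂ W : Subgroup V₀) : Prop := W ≠ ⊥ ∧ W ≠ A₁ ∧ W ≠ A₂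

open Classical in
/-- the lift of `ρ` with values in `[0, ℓ)`, changed at `v₀` -/
def lf {ℓ : ℕ} (ρ : V₀ → ZMod ℓ) (v₀ v : V₀) : ℤ :=
  ((ρ v).val : ℤ) + if v = v₀ ∧ ρ v ≠ 0 then (ℓ : ℤ) else 0

variable {n : ℕ} (E₀ : Subgroup (MulAut V₀)) (A₁ A₂ : Subgroup V₀)

/-- the local part of the value of `W12`, `aL` off the axes -/
def P12X (U : Subgroup V₀ → ℚ) (c d : V₀) (L : Set (SO.SS n V₀)) : ℚ :=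
  ∑ᶠ σ ∈ {σ | σ ∈ EL E₀ L ∧ Of A₁ A₂ (aL (c * σ d) L)},
    ux U (pL L) c * ux U (pL L) (σ d) / ux U (pL L) (c * σ d) *
      (ux U (aL (c * σ d) L) (c * σ d) * N12 E₀ (c * σ d) L)

/-- the sum for `F₁₃` -/
def PX13 (U : Subgroup V₀ → ℚ) (c d : V₀) (F₁₃ : Set (SO.SS n V₀) → ℚ) : ℚ :=
  ∑ᶠ L ∈ {L : Set (SO.SS n V₀) | pL L ≠ ⊥ ∧ pL L ≠ A₂ ∧ qL L ≠ ⊥ ∧ qL L ≠ A₂ ∧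
    ¬ (pL L = A₁ ∧ qL L = A₁)}, mob F₁₃ L * P13 E₀ U c d L

/-- the sum for `F₁₂` -/
def PX12 (U : Subgroup V₀ → ℚ) (c d : V₀) (F₁₂ : Set (SO.SS n V₀) → ℚ) : ℚ :=
  ∑ᶠ L ∈ {L : Set (SO.SS n V₀) | Of A₁ A₂ (pL L)}, mob F₁₂ L * P12X E₀ A₁ A₂ U c d L

end defs

section axes

variable {V₀ G : Type} [CommGroup V₀] [Group G] {M : Ideal (integralClosure ℤ ℂ)} [M.IsMaximal]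
  {n : ℕ} (E₀ : Subgroup (MulAut V₀)) (A₁ A₂ : Subgroup V₀)

/-- the part of `F₁₃` at `A₁` -/
def AX1 (B : Bk (FF M) V₀ G) (m : ℕ) (c d : V₀) (F₁₃ : Set (SO.SS n V₀) → ℚ) : ℂ :=
  ∑ᶠ L ∈ {L : Set (SO.SS n V₀) | pL L = A₁ ∧ qL L = A₁}, (mob F₁₃ L : ℚ) * W13 B m c d L

/-- the part of `F₁₂` at `A₁` -/
def AX2 (B : Bk (FF M) V₀ G) (m : ℕ) (c d : V₀) (F₁₂ : Set (SO.SS n V₀) → ℚ) : ℂ :=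
  (kE E₀ c : ℂ)⁻¹ * ∑ᶠ L ∈ {L : Set (SO.SS n V₀) | pL L = A₁}, (mob F₁₂ L : ℚ) *
    ∑ᶠ σ ∈ {σ | σ ∈ EL E₀ L ∧ aL (c * σ d) L = A₁}, HK B m (c * σ d) L

/-- the part of `F₁₂` at `A₂`: pure conditions -/
def AX3 (B : Bk (FF M) V₀ G) (m : ℕ) (c d : V₀) (F₁₂ : Set (SO.SS n V₀) → ℚ) : ℂ :=
  ((kE E₀ c : ℂ) * kE E₀ d)⁻¹ * ∑ᶠ L ∈ {L : Set (SO.SS n V₀) | pL L = A₂ ∧ qL L = A₂ ∧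
    ∀ s ∈ L, (s.1 : ℕ) = 0 ∧ (s.2.1 : ℕ) = 0}, (mob F₁₂ L : ℚ) * W12 B m c d L

/-- the part of `F₁₂` at `A₂`: `pL = ⊤`, `aL = A₂` -/
def AX4 (B : Bk (FF M) V₀ G) (m : ℕ) (c d : V₀) (F₁₂ : Set (SO.SS n V₀) → ℚ) : ℂ :=
  ((kE E₀ c : ℂ) * kE E₀ d)⁻¹ * ∑ᶠ L ∈ {L : Set (SO.SS n V₀) | pL L = ⊤}, (mob F₁₂ L : ℚ) *
    ∑ᶠ σ ∈ {σ | σ ∈ EL E₀ L ∧ aL (c * σ d) L = A₂}, HK B m (c * σ d) L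

/-- the part of `F₁₂` at `A₂`: `pL` a line off the axes, `aL = A₂`; with arbitrary numbers `U` -/
def AX5 (U : Subgroup V₀ → ℚ) (B : Bk (FF M) V₀ G) (m : ℕ) (c d : V₀)
    (F₁₂ : Set (SO.SS n V₀) → ℚ) : ℂ :=
  ((kE E₀ c : ℂ) * kE E₀ d)⁻¹ * ∑ᶠ σ ∈ {σ : MulAut V₀ | σ ∈ E₀ ∧ c * σ d ≠ 1},
    ∑ᶠ w ∈ {w : V₀ | w ∈ A₂ ∧ w ≠ 1}, (U (Subgroup.zpowers (c * σ d * w)) : ℚ) *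
      T5 B m (c * σ d) w σ F₁₂

/-- the main part -/
def MN (ℓ : ℕ) (B : Bk (FF M) V₀ G) (x₁ x₂ : V₀ → ℤ) (c d : V₀) : ℂ :=
  ((x₁ c⁻¹ * x₂ d⁻¹ : ℤ) : ℂ) / ℓ ^ 2 * L2 B c d -
    (kE E₀ c : ℂ)⁻¹ * ∑ᶠ σ ∈ {σ : MulAut V₀ | σ ∈ E₀ ∧ c * σ d ≠ 1},
      ((x₁ (c * σ d)⁻¹ * x₂ (σ⁻¹ (c * σ d))⁻¹ : ℤ) : ℂ) / ℓ ^ 2 * L1 B (c * σ d)

end axes

/-! ## 1. The group `E₀` -/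

/-- DIX: consequences of `Dx`.

Proof.  (1) `W = ⊤`: only `1` fixes all elements.  `|W| = ℓ`, `W ≠ A₁`, `A₂`: `W` is generated by `a₁ a₂` with
`a₁ ∈ A₁`, `a₂ ∈ A₂` both `≠ 1`; if `σ` fixes it then `σ a₁ = a₁`, `σ a₂ = a₂` (`s1`, `s2`, `ds`), so `σ` is `1` on `A₁ = ⟨a₁⟩`,
`A₂ = ⟨a₂⟩` and on `V₀ = A₁ A₂` (orders).  The order of `W ≠ ⊥` is `ℓ` or `ℓ²`.
(2) Subgroups of groups of prime order.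
(3) `σ ∈ E₀` fixes `c` iff it fixes `A₁ = ⟨c⟩`.  `Es E₀ c ≤ E₀`, Lagrange; `nE` divides `|E₀|`.
(4) `c = a₁ a₂` as in (1).
(5) `v = a₁ a₂`, `a₁ = a ^ i` for a generator `a` of `A₁`; `ρ v = i`.
(6) `σ a = a ^ (χ σ)` for a generator `a` of `A₁` (the exponent modulo `ℓ`; for `σ ∉ E₀` let `χ σ = 0`),
`ρ(σ v) = χ σ ρ v` because `ρ` is `0` on `A₂` and `σ A₂ ≤ A₂`.  `χ` is multiplicative on `E₀`, not trivial (`nt`),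
so `(1 - χ τ) ∑ χ σ = 0` with `χ τ ≠ 1`.  `χ(σ⁻¹)` in the same way (substitution).
(7) `W` is generated by `a₁ a₂` as in (1), also by its power with first component `κ`; `w` is unique
(`ds`); the elements of `⟨κ w⟩` are the `(κ w)^i = κ^i w^i`. -/
def DixStmt : Prop := ∀ (ℓ : ℕ) [Fact ℓ.Prime] (V₀ : Type) [CommGroup V₀] [Finite V₀]
  (E₀ : Subgroup (MulAut V₀)) (A₁ A₂ : Subgroup V₀), Dx ℓ E₀ A₁ A₂ →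
  (∀ W, Of A₁ A₂ W → Rw E₀ W) ∧
  (A₁ ≠ ⊥ ∧ A₂ ≠ ⊥ ∧ A₁ ≠ ⊤ ∧ A₂ ≠ ⊤ ∧ A₁ ≠ A₂ ∧ (∀ W, W ≤ A₁ → W = ⊥ ∨ W = A₁) ∧
    (∀ W, W ≤ A₂ → W = ⊥ ∨ W = A₂)) ∧
  (∀ c ∈ A₁, c ≠ 1 → Subgroup.zpowers c = A₁ ∧ kE E₀ c = Nat.card (St E₀ A₁) ∧
    nE E₀ c * kE E₀ c = Nat.card E₀ ∧ ¬ ℓ ∣ kE E₀ c ∧ ¬ ℓ ∣ nE E₀ c) ∧
  (∃ c, Rgl E₀ c) ∧
  (∃ ρ : V₀ → ZMod ℓ, Hm ρ ∧ (∀ v ∈ A₂, ρ v = 0) ∧ ∀ v ∈ A₁, v ≠ 1 → ρ v ≠ 0) ∧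
  (∃ χ : MulAut V₀ → ZMod ℓ, (∀ σ ∈ E₀, χ σ⁻¹ * χ σ = 1) ∧
    (∀ ρ : V₀ → ZMod ℓ, Hm ρ → (∀ v ∈ A₂, ρ v = 0) → ∀ σ ∈ E₀, ∀ v, ρ (σ v) = χ σ * ρ v) ∧
    ∑ᶠ σ ∈ {σ | σ ∈ E₀}, χ σ = 0 ∧ ∑ᶠ σ ∈ {σ | σ ∈ E₀}, χ σ⁻¹ = 0) ∧
  (∀ κ ∈ A₁, κ ≠ 1 → (∀ w ∈ A₂, w ≠ 1 → Of A₁ A₂ (Subgroup.zpowers (κ * w)) ∧
      Subgroup.zpowers (κ * w) ≠ ⊤ ∧ κ ∉ Subgroup.zpowers (κ * w) ∧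
      ∀ w' ∈ A₂, Subgroup.zpowers (κ * w') = Subgroup.zpowers (κ * w) → w' = w) ∧
    ∀ W, Of A₁ A₂ W → W ≠ ⊤ → κ ∉ W ∧ ∃ w ∈ A₂, w ≠ 1 ∧ W = Subgroup.zpowers (κ * w))

/-! ## 2. The relation -/

/-- F3D: the part of `F₁₃`.

Proof.  If all `p` or all `q` of `L` are in `A₂` (`pL L ≤ A₂` or `qL L ≤ A₂`) then `mob F₁₃ L = 0` (MBI and the
hypothesis for all subsets).  `kf W c = 1` for `W ≤ A₁ = ⟨c⟩` (DIX (3)), `kf W c = (kE c)⁻¹` otherwise.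
`pL = qL = A₁`: the term of `AX1`.  `pL = A₁`, `Of (qL L)`: the factor is `(kE d)⁻¹`, `W13 = (kE c)⁻¹ P13` (MXA,
`c ∈ A₁`, `|St E₀ A₁| = kE c`).  `Of (pL L)`, `qL L = A₁`: MXB.  Both off the axes: the factor is
`(kE c)⁻¹ (kE d)⁻¹`, `W13 = P13` (WTD, DIX (1)). -/
def F3dStmt : Prop := ∀ (ℓ : ℕ) [Fact ℓ.Prime] (M : Ideal (integralClosure ℤ ℂ)) [M.IsMaximal],
  (ℓ : integralClosure ℤ ℂ) ∈ M → ℓ ≠ 2 → ∀ (V₀ G : Type) [CommGroup V₀] [Finite V₀] [Group G]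
  [Finite G] (E₀ : Subgroup (MulAut V₀)) (A₁ A₂ : Subgroup V₀), Dx ℓ E₀ A₁ A₂ →
  ∀ B : Bk (FF M) V₀ G, Sd ℓ M E₀ B → ∀ n m : ℕ, PE ℓ n m G → ∀ (c d : V₀), c ∈ A₁ → d ∈ A₁ → c ≠ 1 →
  d ≠ 1 → ∀ F₁₃ : Set (SO.SS n V₀) → ℚ,
  (∀ τ : Set (SO.SS n V₀), (∀ s ∈ τ, s.2.2.1 ∈ A₂) ∨ (∀ s ∈ τ, s.2.2.2 ∈ A₂) → F₁₃ τ = 0) →
  ∑ᶠ L : Set (SO.SS n V₀), (mob F₁₃ L : ℚ) * ((kf E₀ (pL L) c * kf E₀ (qL L) d : ℚ) : ℂ) *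
      W13 B m c d L =
    ((kE E₀ c : ℂ) * kE E₀ d)⁻¹ * ((PX13 E₀ A₁ A₂ B.U c d F₁₃ : ℚ) : ℂ) + AX1 A₁ B m c d F₁₃

/-- F2A: the part of `F₁₂` with `pL = ⊥`.

Proof.  `qL L ≠ ⊥`: `W12 L = 0` (W2A (1)).  `qL L = ⊥`, `L ≠ ∅`: all `p = q = 1` in `L`, so `F₁₂` has the value `v` on
all subsets of `L` and `mob F₁₂ L = 0` (MBI).  `L = ∅`: `mob F₁₂ ∅ = v`, `kf ⊥ c = 1`, WZE (c). -/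
def F2aStmt : Prop := ∀ (ℓ : ℕ) [Fact ℓ.Prime] (M : Ideal (integralClosure ℤ ℂ)) [M.IsMaximal],
  (ℓ : integralClosure ℤ ℂ) ∈ M → ℓ ≠ 2 → ∀ (V₀ G : Type) [CommGroup V₀] [Finite V₀] [Group G]
  [Finite G] (E₀ : Subgroup (MulAut V₀)), Fq ℓ V₀ E₀ →
  ∀ B : Bk (FF M) V₀ G, Sb ℓ M E₀ B → ∀ n m : ℕ, PE ℓ n m G → ∀ (c d : V₀), c ≠ 1 →
  d ≠ 1 → ∀ (F₁₂ : Set (SO.SS n V₀) → ℚ) (v : ℚ),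
  (∀ τ : Set (SO.SS n V₀), (∀ s ∈ τ, s.2.2.1 = 1 ∧ s.2.2.2 = 1) → F₁₂ τ = v) →
  ∑ᶠ L ∈ {L : Set (SO.SS n V₀) | pL L = ⊥}, (mob F₁₂ L : ℚ) *
      ((kf E₀ (pL L) c * kf E₀ (qL L) d : ℚ) : ℂ) * W12 B m c d L = v * L2 B c d

/-- F2B: the part of `F₁₂` with `pL = A₁`.

Proof.  `EL L = ∅`: `W12 L = 0` (W2A (2)), and the term of `AX2` is `0`.  Otherwise `qL L = A₁` (`σ ∈ E₀` maps `qL L`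
onto `pL L`), `kf = 1`, `c`, `σ d ∈ A₁ = pL L`: W2X: `W12 L = (kE c)⁻¹ ∑_(σ ∈ EL) HK (c σ d) L` (DIX (3)).  The `σ` with
`aL (c σ d) L = A₁` give `AX2`; `aL (c σ d) L ≤ A₁`, so the others have `aL = ⊥`: with `κ = c σ d` all `p = κ⁻ᵏ`,
`q = σ⁻¹ p = (σ⁻¹ κ)⁻ᵏ`, and `κ ≠ 1` because `pL L ≠ ⊥`.  Conversely for `σ ∈ E₀` with `κ ≠ 1` these `L` are the
`L ⊆ τ₀` of M12 (`κ₂ = σ⁻¹ κ`) with `pL L ≠ ⊥` (then `pL L = A₁`, `σ ∈ EL L`).  For `F = F₁₂ - v`, `mob F L = mob F₁₂ L`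
(`L ≠ ∅`, MBI), and `mob F L = 0` for the `L ⊆ τ₀` with `pL L = ⊥` (then all `p = q = 1` in `L`, hypothesis, also for
`L = ∅`).  M12 for `F` with the value `- g κ⁻¹ (σ⁻¹ κ)⁻¹`. -/
def F2bStmt : Prop := ∀ (ℓ : ℕ) [Fact ℓ.Prime] (M : Ideal (integralClosure ℤ ℂ)) [M.IsMaximal],
  (ℓ : integralClosure ℤ ℂ) ∈ M → ℓ ≠ 2 → ∀ (V₀ G : Type) [CommGroup V₀] [Finite V₀] [Group G]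
  [Finite G] (E₀ : Subgroup (MulAut V₀)) (A₁ A₂ : Subgroup V₀), Dx ℓ E₀ A₁ A₂ →
  ∀ B : Bk (FF M) V₀ G, Sb ℓ M E₀ B → ∀ n m : ℕ, PE ℓ n m G → ∀ (c d : V₀), c ∈ A₁ → d ∈ A₁ → c ≠ 1 →
  d ≠ 1 → ∀ (F₁₂ : Set (SO.SS n V₀) → ℚ) (v : ℚ) (g : V₀ → V₀ → ℚ),
  (∀ τ : Set (SO.SS n V₀), (∀ s ∈ τ, s.2.2.1 = 1 ∧ s.2.2.2 = 1) → F₁₂ τ = v) →
  (∀ (κ₁ κ₂ : V₀) (I : Set (Fin n)), (∃ i ∈ I, (i : ℕ) = 0) →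
    F₁₂ {s | s.1 ∈ I ∧ s.2.2.1 = κ₁ ^ (s.2.1 : ℕ) ∧ s.2.2.2 = κ₂ ^ (s.2.1 : ℕ)} = v - g κ₁ κ₂) →
  ∑ᶠ L ∈ {L : Set (SO.SS n V₀) | pL L = A₁}, (mob F₁₂ L : ℚ) *
      ((kf E₀ (pL L) c * kf E₀ (qL L) d : ℚ) : ℂ) * W12 B m c d L =
    -((kE E₀ c : ℂ)⁻¹ * ∑ᶠ σ ∈ {σ : MulAut V₀ | σ ∈ E₀ ∧ c * σ d ≠ 1},
      (g (c * σ d)⁻¹ (σ⁻¹ (c * σ d))⁻¹ : ℚ) * L1 B (c * σ d)) + AX2 E₀ A₁ B m c d F₁₂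

/-- F2C: the part of `F₁₂` with `pL = A₂`.

Proof.  `EL L = ∅`: `W12 L = 0` (W2A (2)).  Otherwise `qL L = A₂`, the factor is `(kE c)⁻¹ (kE d)⁻¹`.  Let `N` be the set
of the `s ∈ L` with `i = k = 0`, `(p, q) ≠ (1, 1)`.  For `T ⊆ L` all `p`, `q` in `T` are in `A₂`; `F₁₂ T = 0` if `T` meets `N` (not
free), `F₁₂ T = v` otherwise.  So `mob F₁₂ L = v (-1)^|N| [L = N]`, i.e. it is `0` unless `i = k = 0` for all of `L`.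
(In general: the sum over the `T ⊆ L - N` of `(-1)^|L - T|` is `0` unless `L = N`.)  If some `s ∈ L` has `i = k = 0`,
`p = q = 1` then `mob F₁₂ L = 0`, too; this does not matter. -/
def F2cStmt : Prop := ∀ (ℓ : ℕ) [Fact ℓ.Prime] (M : Ideal (integralClosure ℤ ℂ)) [M.IsMaximal],
  (ℓ : integralClosure ℤ ℂ) ∈ M → ℓ ≠ 2 → ∀ (V₀ G : Type) [CommGroup V₀] [Finite V₀] [Group G]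
  [Finite G] (E₀ : Subgroup (MulAut V₀)) (A₁ A₂ : Subgroup V₀), Dx ℓ E₀ A₁ A₂ →
  ∀ B : Bk (FF M) V₀ G, Sb ℓ M E₀ B → ∀ n m : ℕ, PE ℓ n m G → ∀ (c d : V₀), c ∈ A₁ → d ∈ A₁ → c ≠ 1 →
  d ≠ 1 → ∀ (F₁₂ : Set (SO.SS n V₀) → ℚ) (v : ℚ), (∀ τ, ¬ Fre τ → F₁₂ τ = 0) →
  (∀ τ : Set (SO.SS n V₀), Fre τ → (∀ s ∈ τ, s.2.2.1 ∈ A₂ ∧ s.2.2.2 ∈ A₂) → F₁₂ τ = v) →
  ∑ᶠ L ∈ {L : Set (SO.SS n V₀) | pL L = A₂}, (mob F₁₂ L : ℚ) *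
      ((kf E₀ (pL L) c * kf E₀ (qL L) d : ℚ) : ℂ) * W12 B m c d L = AX3 E₀ A₂ B m c d F₁₂

/-- F2E: the part of `F₁₂` with `pL` off the axes.

Proof.  `Rw (pL L)` (DIX (1)), W2A (3); if `σ ∈ EL L` then `qL L = σ⁻¹ (pL L)` is off the axes, and the factor is
`(kE c)⁻¹ (kE d)⁻¹` (if `EL L` is empty all terms are `0`).  Let `σ ∈ EL L`, `κ = c σ d ∈ A₁`, `a = κ^k p`.  If all `a ∈ A₁` then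
all `p ∈ A₁`, not possible; so `aL κ L` is `A₂` or off the axes.  Off the axes: W2B gives the terms of `P12X`.
`aL κ L = A₂`: `κ ≠ 1` (otherwise `pL L ≤ A₂`).  If `pL L = ⊤` all `ux = 1`: the terms of `AX4`.  Otherwise
`pL L = ⟨κ w⟩` for a unique `w ∈ A₂`, `w ≠ 1` (DIX (7)), `c`, `σ d`, `κ ∉ pL L` (they generate `A₁`), the factor is
`U (pL L)`; `p = (κ w)^j`, `κ^(k+j) w^j ∈ A₂` gives `j ≡ - k` modulo `ℓ`: `p = (κ w)^(-k)`, `q = σ⁻¹ p`: `L ⊆ TP n κ w σ`.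
Conversely for `σ ∈ E₀` with `κ ≠ 1`, `w ∈ A₂`, `w ≠ 1`, `L ⊆ TP n κ w σ` with `pL L ≠ ⊥`: `pL L = ⟨κ w⟩`, `σ ∈ EL L`, and
`aL κ L`, generated by the `w^(-k)`, is `A₂` (some `k` is not divisible by `ℓ`). -/
def F2eStmt : Prop := ∀ (ℓ : ℕ) [Fact ℓ.Prime] (M : Ideal (integralClosure ℤ ℂ)) [M.IsMaximal],
  (ℓ : integralClosure ℤ ℂ) ∈ M → ℓ ≠ 2 → ∀ (V₀ G : Type) [CommGroup V₀] [Finite V₀] [Group G]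
  [Finite G] (E₀ : Subgroup (MulAut V₀)) (A₁ A₂ : Subgroup V₀), Dx ℓ E₀ A₁ A₂ →
  ∀ B : Bk (FF M) V₀ G, Sd ℓ M E₀ B → ∀ n m : ℕ, PE ℓ n m G → ∀ (c d : V₀), c ∈ A₁ → d ∈ A₁ → c ≠ 1 →
  d ≠ 1 → ∀ F₁₂ : Set (SO.SS n V₀) → ℚ,
  ∑ᶠ L ∈ {L : Set (SO.SS n V₀) | Of A₁ A₂ (pL L)}, (mob F₁₂ L : ℚ) *
      ((kf E₀ (pL L) c * kf E₀ (qL L) d : ℚ) : ℂ) * W12 B m c d L =
    ((kE E₀ c : ℂ) * kE E₀ d)⁻¹ * ((PX12 E₀ A₁ A₂ B.U c d F₁₂ : ℚ) : ℂ) + AX4 E₀ A₂ B m c d F₁₂ +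
      AX5 E₀ A₂ B.U B m c d F₁₂

/-- FID: the relation.

Proof.  LAD and LBX, and the sum over `L` is split (F3D for `F₁₃`; `pL = ⊥`, `A₁`, `A₂` or off the axes for `F₁₂`: F2A,
F2B, F2C, F2E) with `v = x₁(c⁻¹) x₂(d⁻¹)/ℓ²`, `g κ₁ κ₂ = x₁(κ₁) x₂(κ₂)/ℓ²`.  The hypotheses: `z13` (`ρ₁`, `ρ₂` are `0` on `A₂`);
types with all `p = q = 1` are free, `z12` (`ρ 1 = 0`); the types of F2B are free and satisfy the hypotheses of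
`prod`, and `K1` (`n > 1`) gives `K = x₁(κ₁) x₂(κ₂)/ℓ²`; `nf`, `z12`. -/
def FidStmt : Prop := ∀ (ℓ : ℕ) [Fact ℓ.Prime] (M : Ideal (integralClosure ℤ ℂ)) [M.IsMaximal],
  (ℓ : integralClosure ℤ ℂ) ∈ M → ℓ ≠ 2 → ∀ (V₀ G : Type) [CommGroup V₀] [Finite V₀] [Group G]
  [Finite G] (E₀ : Subgroup (MulAut V₀)) (A₁ A₂ : Subgroup V₀), Dx ℓ E₀ A₁ A₂ →
  ∀ B : Bk (FF M) V₀ G, Sd ℓ M E₀ B → ∀ n m : ℕ, PE ℓ n m G →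
  ∀ (ρ₁ ρ₂ : V₀ → ZMod ℓ) (x₁ x₂ : V₀ → ℤ) (c d : V₀), c ∈ A₁ → d ∈ A₁ → c ≠ 1 → d ≠ 1 →
  ∀ (F₁₃ F₁₂ : Set (SO.SS n V₀) → ℚ) (K : Set (Fin n × V₀ × V₀) → ℚ), Hm ρ₁ → Hm ρ₂ →
  (∀ v ∈ A₂, ρ₁ v = 0 ∧ ρ₂ v = 0) → FY ℓ n ρ₁ ρ₂ x₁ x₂ c d F₁₃ F₁₂ K →
  Rel ℓ n m B.i c d F₁₃ F₁₂ →
  MN E₀ ℓ B x₁ x₂ c d + ((kE E₀ c : ℂ) * kE E₀ d)⁻¹ *
      ((PX13 E₀ A₁ A₂ B.U c d F₁₃ + PX12 E₀ A₁ A₂ B.U c d F₁₂ : ℚ) : ℂ) +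
    (AX1 A₁ B m c d F₁₃ + AX2 E₀ A₁ B m c d F₁₂ + AX3 E₀ A₂ B m c d F₁₂ +
      AX4 E₀ A₂ B m c d F₁₂ + AX5 E₀ A₂ B.U B m c d F₁₂) ∈ RM M

/-! ## 3. Comparison -/

/-- PPE: continuity of the local part.

Proof.  As `PPC` (squad ASO): `P13` (in `PX13`: `pL L` is `A₁` or off the axes, `ux U A₁ c = 1` as `c ∈ A₁`, in the same
way for `qL L`, `d`) and `P12X` depend only on the numbers `U W` with `Of A₁ A₂ W`. -/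
def PpeStmt : Prop := ∀ (ℓ : ℕ) [Fact ℓ.Prime] (V₀ : Type) [CommGroup V₀] [Finite V₀]
  (E₀ : Subgroup (MulAut V₀)) (A₁ A₂ : Subgroup V₀) (n : ℕ) (c d : V₀), c ∈ A₁ → d ∈ A₁ →
  ∀ F₁₃ F₁₂ : Set (SO.SS n V₀) → ℚ,
  ∃ K₀ : ℕ, ∀ K, K₀ ≤ K → ∀ U U' : Subgroup V₀ → ℚ,
  (∀ W, Of A₁ A₂ W → ∃ q ∈ SOR.Rl ℓ, U W = 1 + ℓ * q) →
  (∀ W, Of A₁ A₂ W → ∃ q ∈ SOR.Rl ℓ, U' W = 1 + ℓ * q) →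
  (∀ W, Of A₁ A₂ W → ∃ q ∈ SOR.Rl ℓ, U W - U' W = ℓ ^ K * q) →
  (PX13 E₀ A₁ A₂ U c d F₁₃ + PX12 E₀ A₁ A₂ U c d F₁₂) -
    (PX13 E₀ A₁ A₂ U' c d F₁₃ + PX12 E₀ A₁ A₂ U' c d F₁₂) ∈ SOR.Rl ℓ

/-- T5B: the numbers `T5` have the denominator `ℓ ^ 2`.

Proof.  TFA: `L1A` is `ℓ` times an element of `RM M` (TFH), the numbers `nI` are in `RM M` (TFN (1)), and
`F₁₂ (..) - v = - 12 x₁ x₂/(ℓ² i₀) + z/ℓ` (`np`, `¬ ℓ ∣ i₀` for `1 ≤ i₀ ≤ ℓ - 1`), `ℓ²` times it is in `Rl ℓ`. -/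
def T5bStmt : Prop := ∀ (ℓ : ℕ) [Fact ℓ.Prime] (M : Ideal (integralClosure ℤ ℂ)) [M.IsMaximal],
  (ℓ : integralClosure ℤ ℂ) ∈ M → ℓ ≠ 2 → ∀ (V₀ G : Type) [CommGroup V₀] [Finite V₀] [Group G]
  [Finite G] (E₀ : Subgroup (MulAut V₀)), Fq ℓ V₀ E₀ → ∀ B : Bk (FF M) V₀ G, Sd ℓ M E₀ B →
  ∀ n m r : ℕ, 0 < r → n = ℓ ^ r → PE ℓ n m G → ∀ (ρ₁ ρ₂ : V₀ → ZMod ℓ) (x₁ x₂ : V₀ → ℤ)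
  (c d : V₀) (F₁₃ F₁₂ : Set (SO.SS n V₀) → ℚ) (K : Set (Fin n × V₀ × V₀) → ℚ), Hm ρ₁ → Hm ρ₂ →
  FY ℓ n ρ₁ ρ₂ x₁ x₂ c d F₁₃ F₁₂ K → ∀ (κ w : V₀) (σ : MulAut V₀), w ≠ 1 →
  κ ∉ Subgroup.zpowers w → (ℓ : ℂ) ^ 2 * T5 B m κ w σ F₁₂ ∈ RM M

/-- PAX: the parts at the axes for pairs.

Proof.  `AX1`: PRT.  `AX2`: PRH for `A₁`.  `AX3`: PRO.  `AX4`, `T5`: PRH for `A₂` (for `L ⊆ TP n κ w σ` with `pL L ≠ ⊥` and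
`w ∈ A₂`, `w ≠ 1`: `aL κ L` is generated by the `w^(-k)`, and `ℓ ∤ k` for one of them (otherwise all `p = 1`),
so it is `A₂`, of order `ℓ`). -/
def PaxStmt : Prop := ∀ (ℓ : ℕ) [Fact ℓ.Prime] (M : Ideal (integralClosure ℤ ℂ)) [M.IsMaximal],
  (ℓ : integralClosure ℤ ℂ) ∈ M → ℓ ≠ 2 → ∀ (V₀ G H : Type) [CommGroup V₀] [Finite V₀] [Group G]
  [Finite G] [Group H] [Finite H] (E₀ : Subgroup (MulAut V₀)) (A₁ A₂ : Subgroup V₀),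
  Dx ℓ E₀ A₁ A₂ → ∀ (B : Bk (FF M) V₀ G) (B' : Bk (FF M) V₀ H) (j : H →* G), Sb ℓ M E₀ B →
  Sb ℓ M E₀ B' → ∀ n m : ℕ, PE ℓ n m G →
  (Pr A₁ B B' j → ∀ (c d : V₀) (F₁₃ F₁₂ : Set (SO.SS n V₀) → ℚ),
    AX1 A₁ B' m c d F₁₃ = AX1 A₁ B m c d F₁₃ ∧ AX2 E₀ A₁ B' m c d F₁₂ = AX2 E₀ A₁ B m c d F₁₂) ∧
  (Pr A₂ B B' j → ∀ (c d : V₀) (F₁₂ : Set (SO.SS n V₀) → ℚ),
    AX3 E₀ A₂ B' m c d F₁₂ = AX3 E₀ A₂ B m c d F₁₂ ∧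
    AX4 E₀ A₂ B' m c d F₁₂ = AX4 E₀ A₂ B m c d F₁₂ ∧
    (∀ (κ w : V₀) (σ : MulAut V₀), w ∈ A₂ → w ≠ 1 → T5 B' m κ w σ F₁₂ = T5 B m κ w σ F₁₂) ∧
    ∀ U : Subgroup V₀ → ℚ, AX5 E₀ A₂ U B' m c d F₁₂ = AX5 E₀ A₂ U B m c d F₁₂)

/-- DFB: the difference of `B` and a comparison block `B'`.

Proof.  `K ≥ 2` and `K ≥ K₀` of PPE.  FID for `B` and for `B'`.  The difference of the local parts is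
`(kE c kE d)⁻¹` (a unit of `Rl ℓ`, DIX (3)) times an element of `Rl ℓ` (PPE; `Sd.un`).  PAX for `B'`, `BR`:
`AXi B' = AXi BR`, `AX5 (B'.U) B' = AX5 (B'.U) BR`; and `AX5 (B'.U) BR - AX5 (B.U) BR` is in `RM M`: `B'.U W - B.U W ∈ ℓ^K Rl ℓ` for
`W = ⟨κ w⟩` (`Of`, DIX (7)), `ℓ² T5 ∈ RM M` (T5B for `BR`; `κ = c σ d ∈ A₁`, `κ ∉ ⟨w⟩ = A₂`). -/
def DfbStmt : Prop := ∀ (ℓ : ℕ) [Fact ℓ.Prime] (M : Ideal (integralClosure ℤ ℂ)) [M.IsMaximal],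
  (ℓ : integralClosure ℤ ℂ) ∈ M → ℓ ≠ 2 → ∀ (V₀ : Type) [CommGroup V₀] [Finite V₀]
  (E₀ : Subgroup (MulAut V₀)) (A₁ A₂ : Subgroup V₀), Dx ℓ E₀ A₁ A₂ → ∀ n r : ℕ, 0 < r → n = ℓ ^ r →
  ∀ (ρ₁ ρ₂ : V₀ → ZMod ℓ) (x₁ x₂ : V₀ → ℤ) (c d : V₀), c ∈ A₁ → d ∈ A₁ → c ≠ 1 → d ≠ 1 →
  ∀ (F₁₃ F₁₂ : Set (SO.SS n V₀) → ℚ) (K : Set (Fin n × V₀ × V₀) → ℚ), Hm ρ₁ → Hm ρ₂ →
  (∀ v ∈ A₂, ρ₁ v = 0 ∧ ρ₂ v = 0) → FY ℓ n ρ₁ ρ₂ x₁ x₂ c d F₁₃ F₁₂ K →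
  ∃ K₀ : ℕ, ∀ k, K₀ ≤ k → ∀ (G G' H : Type) [Group G] [Finite G] [Group G'] [Finite G'] [Group H]
  [Finite H] (B : Bk (FF M) V₀ G) (B' : Bk (FF M) V₀ G') (BR : Bk (FF M) V₀ H) (j : H →* G')
  (m : ℕ), Sd ℓ M E₀ B → Sd ℓ M E₀ B' → Sd ℓ M E₀ BR → PE ℓ n m G → PE ℓ n m G' → PE ℓ n m H →
  Rel ℓ n m B.i c d F₁₃ F₁₂ → Rel ℓ n m B'.i c d F₁₃ F₁₂ → Pr A₁ B' BR j → Pr A₂ B' BR j →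
  (∀ W, Of A₁ A₂ W → ∃ q ∈ SOR.Rl ℓ, B.U W - B'.U W = ℓ ^ k * q) →
  MN E₀ ℓ B x₁ x₂ c d - MN E₀ ℓ B' x₁ x₂ c d + (AX1 A₁ B m c d F₁₃ - AX1 A₁ BR m c d F₁₃) +
    (AX2 E₀ A₁ B m c d F₁₂ - AX2 E₀ A₁ BR m c d F₁₂) +
    (AX3 E₀ A₂ B m c d F₁₂ - AX3 E₀ A₂ BR m c d F₁₂) +
    (AX4 E₀ A₂ B m c d F₁₂ - AX4 E₀ A₂ BR m c d F₁₂) +
    (AX5 E₀ A₂ B.U B m c d F₁₂ - AX5 E₀ A₂ B.U BR m c d F₁₂) ∈ RM M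

/-- T5C: the sums `AX5` for the difference of two systems of numbers `U`.

Proof.  `u w = (U ⟨κ w⟩ - U' ⟨κ w⟩)/ℓ` for `w ≠ 1`, `u 1 = 0`, `κ = c σ d ∈ A₁`, `κ ≠ 1`: in `Rl ℓ` (`un`, `Of`, DIX (7)); for `τ ∈ St E₀ A₁`:
`⟨κ τ w⟩ = τ ⟨κ w⟩` and `B.U`, `B'.U` are invariant (CJD (6), with `sur`).  TFV for every `σ`. -/
def T5cStmt : Prop := ∀ (ℓ : ℕ) [Fact ℓ.Prime] (M : Ideal (integralClosure ℤ ℂ)) [M.IsMaximal],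
  (ℓ : integralClosure ℤ ℂ) ∈ M → ℓ ≠ 2 → ∀ (V₀ G G' H : Type) [CommGroup V₀] [Finite V₀]
  [Group G] [Finite G] [Group G'] [Finite G'] [Group H] [Finite H]
  (E₀ : Subgroup (MulAut V₀)) (A₁ A₂ : Subgroup V₀), Dx ℓ E₀ A₁ A₂ →
  ∀ (B : Bk (FF M) V₀ G) (B' : Bk (FF M) V₀ G') (BH : Bk (FF M) V₀ H), Sd ℓ M E₀ B →
  Sd ℓ M E₀ B' → Sd ℓ M E₀ BH → ∀ n m r : ℕ, 0 < r → n = ℓ ^ r → PE ℓ n m H →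
  ∀ (ρ₁ ρ₂ : V₀ → ZMod ℓ) (x₁ x₂ : V₀ → ℤ) (c d : V₀), c ∈ A₁ → d ∈ A₁ → c ≠ 1 → d ≠ 1 →
  ∀ (F₁₃ F₁₂ : Set (SO.SS n V₀) → ℚ) (K : Set (Fin n × V₀ × V₀) → ℚ), Hm ρ₁ → Hm ρ₂ → Lf ρ₁ x₁ →
  Lf ρ₂ x₂ → (∀ v ∈ A₂, ρ₁ v = 0 ∧ ρ₂ v = 0) → FY ℓ n ρ₁ ρ₂ x₁ x₂ c d F₁₃ F₁₂ K →
  AX5 E₀ A₂ B.U BH m c d F₁₂ - AX5 E₀ A₂ B'.U BH m c d F₁₂ ∈ RM M

/-- CPD: comparison of four groups.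

Proof.  The alternating sum of DFB for `(B₀, B₀')`, .., `(B₃, B₃')`.  The terms `AX1 BR`, .., `AX4 BR` cancel.  PAX for
`(B₀, B₁)`, `(B₂, B₃)` (`A₁`): `AX1`, `AX2` cancel.  PAX for `(B₀, B₂)`, `(B₁, B₃)` (`A₂`): `AX3`, `AX4` cancel.  The terms
`AX5`: `AX5 (B₂.U) B₂ = AX5 (B₂.U) B₀`, `AX5 (B₃.U) B₃ = AX5 (B₃.U) B₁` (PAX), and
`AX5 (B₀.U) B₀ - AX5 (B₂.U) B₀`, `AX5 (B₁.U) B₁ - AX5 (B₃.U) B₁`, and the same with `BR`, are in `RM M` (T5C).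
The functions `F₁₃`, `F₁₂` are given by RTZ; `PE ℓ n m` for `G₁`, `G₂`, `G₃`, `H` follows from the ones for the groups
containing them or is given. -/
def CpdStmt : Prop := ∀ (ℓ : ℕ) [Fact ℓ.Prime] (M : Ideal (integralClosure ℤ ℂ)) [M.IsMaximal],
  (ℓ : integralClosure ℤ ℂ) ∈ M → ℓ ≠ 2 → ∀ (V₀ : Type) [CommGroup V₀] [Finite V₀]
  (E₀ : Subgroup (MulAut V₀)) (A₁ A₂ : Subgroup V₀), Dx ℓ E₀ A₁ A₂ → ∀ n r : ℕ, 0 < r → n = ℓ ^ r →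
  ∀ (ρ₁ ρ₂ : V₀ → ZMod ℓ) (x₁ x₂ : V₀ → ℤ) (c d : V₀), c ∈ A₁ → d ∈ A₁ → c ≠ 1 → d ≠ 1 →
  Hm ρ₁ → Hm ρ₂ → Lf ρ₁ x₁ → Lf ρ₂ x₂ → (∀ v ∈ A₂, ρ₁ v = 0 ∧ ρ₂ v = 0) →
  ∃ K₀ : ℕ, ∀ k, K₀ ≤ k → ∀ (G₀ G₁ G₂ G₃ G₀' G₁' G₂' G₃' H : Type) [Group G₀] [Finite G₀]
  [Group G₁] [Finite G₁] [Group G₂] [Finite G₂] [Group G₃] [Finite G₃]
  [Group G₀'] [Finite G₀'] [Group G₁'] [Finite G₁'] [Group G₂'] [Finite G₂'] [Group G₃']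
  [Finite G₃'] [Group H] [Finite H] (B₀ : Bk (FF M) V₀ G₀) (B₁ : Bk (FF M) V₀ G₁)
  (B₂ : Bk (FF M) V₀ G₂) (B₃ : Bk (FF M) V₀ G₃) (B₀' : Bk (FF M) V₀ G₀') (B₁' : Bk (FF M) V₀ G₁')
  (B₂' : Bk (FF M) V₀ G₂') (B₃' : Bk (FF M) V₀ G₃') (BR : Bk (FF M) V₀ H)
  (j₁ : G₁ →* G₀) (j₂ : G₂ →* G₀) (j₃ : G₃ →* G₂) (j₄ : G₃ →* G₁)
  (i₀ : H →* G₀') (i₁ : H →* G₁') (i₂ : H →* G₂') (i₃ : H →* G₃') (m : ℕ),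
  Sd ℓ M E₀ B₀ → Sd ℓ M E₀ B₁ → Sd ℓ M E₀ B₂ → Sd ℓ M E₀ B₃ → Sd ℓ M E₀ B₀' →
  Sd ℓ M E₀ B₁' → Sd ℓ M E₀ B₂' → Sd ℓ M E₀ B₃' → Sd ℓ M E₀ BR →
  PE ℓ n m G₀ → PE ℓ n m G₁ → PE ℓ n m G₂ → PE ℓ n m G₃ →
  PE ℓ n m G₀' → PE ℓ n m G₁' → PE ℓ n m G₂' → PE ℓ n m G₃' → PE ℓ n m H →
  Pr A₁ B₀ B₁ j₁ → Pr A₂ B₀ B₂ j₂ → Pr A₁ B₂ B₃ j₃ → Pr A₂ B₁ B₃ j₄ →
  Pr A₁ B₀' BR i₀ → Pr A₂ B₀' BR i₀ → Pr A₁ B₁' BR i₁ → Pr A₂ B₁' BR i₁ →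
  Pr A₁ B₂' BR i₂ → Pr A₂ B₂' BR i₂ → Pr A₁ B₃' BR i₃ → Pr A₂ B₃' BR i₃ →
  (∀ W, Of A₁ A₂ W → ∃ q ∈ SOR.Rl ℓ, B₀.U W - B₀'.U W = ℓ ^ k * q) →
  (∀ W, Of A₁ A₂ W → ∃ q ∈ SOR.Rl ℓ, B₁.U W - B₁'.U W = ℓ ^ k * q) →
  (∀ W, Of A₁ A₂ W → ∃ q ∈ SOR.Rl ℓ, B₂.U W - B₂'.U W = ℓ ^ k * q) →
  (∀ W, Of A₁ A₂ W → ∃ q ∈ SOR.Rl ℓ, B₃.U W - B₃'.U W = ℓ ^ k * q) →
  (MN E₀ ℓ B₀ x₁ x₂ c d - MN E₀ ℓ B₀' x₁ x₂ c d) - (MN E₀ ℓ B₁ x₁ x₂ c d - MN E₀ ℓ B₁' x₁ x₂ c d) -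
    (MN E₀ ℓ B₂ x₁ x₂ c d - MN E₀ ℓ B₂' x₁ x₂ c d) +
    (MN E₀ ℓ B₃ x₁ x₂ c d - MN E₀ ℓ B₃' x₁ x₂ c d) ∈ RM M

/-! ## 4. Arithmetic -/

/-- PEM: a common number `m`.

Proof.  Only the assertion for two groups: by PEX for `G × H` there are `r`, `m` with `PE ℓ (ℓ ^ r) m (G × H)`.  `m % ℓ = 1`.
`El ℓ (g, h)` iff `El ℓ g` and `El ℓ h` (and the same for `Reg`): so `(g, h) ^ m = (g, h)`, and `(g, h) ^ n = 1` by the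
hypotheses.  The second claim: an injective homomorphism preserves orders (`El`, `Reg` depend on the order). -/
def PemStmt : Prop := ∀ (ℓ : ℕ) [Fact ℓ.Prime] (n : ℕ) (G H : Type) [Group G] [Finite G] [Group H]
  [Finite H], ((∃ m, PE ℓ n m G) → (∃ m, PE ℓ n m H) → ∃ m, PE ℓ n m (G × H)) ∧
  (∀ j : H →* G, Function.Injective j → ∀ m, PE ℓ n m G → PE ℓ n m H) ∧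
  (∀ r r', 0 < r → r ≤ r' → (∃ m, PE ℓ (ℓ ^ r) m G) → ∃ m, PE ℓ (ℓ ^ r') m G)

/-- KAD: the arithmetic.

Proof.  `k₁ = kE E₀ c` is the same for all `c ∈ A₁ - 1`, prime to `ℓ`; `n = nE E₀ c`, `n k₁ = |E₀|`, prime to `ℓ` (DIX (3)).
`A₁ - 1` consists of the powers `c^j`, `ℓ ∤ j`, so `D c = D` is constant on `A₁ - 1`.  (R) multiplied with `ℓ²`:
`x₁(c⁻¹) x₂(d⁻¹) N(c, d) ≡ k₁⁻¹ D ∑_(σ, κ = c σ d ≠ 1) x₁(κ⁻¹) x₂((σ⁻¹ κ)⁻¹)` modulo `ℓ² Rl ℓ`, `x₁ = lf ρ v₀`, `x₂ = lf ρ 1`.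
(a) `v₀ = c⁻¹` minus `v₀ = 1` (`κ ≠ c` as `d ≠ 1`): `ℓ x₂(d⁻¹) N(c, d) ≡ 0`, so `N(c, d) ∈ ℓ Rl ℓ`.
(b) `c = d`, `v₀ = κ₀⁻¹`, `κ₀ = c²` (`κ₀ ≠ 1` as `ℓ ≠ 2`, `κ₀ ≠ c`) minus `v₀ = 1`:
`k₁⁻¹ D ℓ ∑_(σ : c σ c = c²) x₂((σ⁻¹ κ₀)⁻¹) ≡ 0`; `σ` runs over the `k₁` elements fixing `c`, `σ⁻¹ κ₀ = κ₀`, so
`D ℓ x₂(κ₀⁻¹) ≡ 0`, `D ∈ ℓ Rl ℓ`.
(c) `v₀ = 1`; modulo `ℓ`: `x₁(κ⁻¹) x₂((σ⁻¹ κ)⁻¹) ≡ ρ(κ) ρ(σ⁻¹ κ) = (a + χ b)(χ⁻¹ a + b) = χ⁻¹ a² + 2 a b + χ b²`, `a = ρ c`,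
`b = ρ d`, `χ = χ σ` (DIX (6)); the terms with `κ = 1` are `0`.  The sum over `σ ∈ E₀` is `2 a b |E₀|` modulo `ℓ`.  As
`N(c, d)`, `D ∈ ℓ Rl ℓ`: `a b N(c, d) ≡ k₁⁻¹ D 2 a b |E₀|`, so `N(c, d) ≡ 2 n D` modulo `ℓ²`.
(d) The last hypothesis for `c = d` in `A₁ - 1` (`A₁ ≠ ⊥`): `(ℓ - 1)² 2 n D + 2 n (ℓ - 1) D + n² k ≡ 0` modulo `ℓ²`; as
`ℓ ∣ D`: `2 n D - 2 n D + n² k ≡ 0`, so `ℓ² ∣ k`. -/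
def KadStmt : Prop := ∀ (ℓ : ℕ) [Fact ℓ.Prime], ℓ ≠ 2 → ∀ (V₀ : Type) [CommGroup V₀] [Finite V₀]
  (E₀ : Subgroup (MulAut V₀)) (A₁ A₂ : Subgroup V₀), Dx ℓ E₀ A₁ A₂ → ∀ ρ : V₀ → ZMod ℓ, Hm ρ →
  (∀ v ∈ A₂, ρ v = 0) → (∀ v ∈ A₁, v ≠ 1 → ρ v ≠ 0) →
  ∀ (D : V₀ → ℚ) (N : V₀ → V₀ → ℚ) (k : ℤ), (∀ c, D c ∈ SOR.Rl ℓ) → (∀ c d, N c d ∈ SOR.Rl ℓ) →
  (∀ c : V₀, ∀ j : ℕ, ¬ ℓ ∣ j → D (c ^ j) = D c) →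
  (∀ c ∈ A₁, ∀ d ∈ A₁, c ≠ 1 → d ≠ 1 → ∀ v₀ : V₀,
    ((lf ρ v₀ c⁻¹ * lf ρ 1 d⁻¹ : ℤ) : ℚ) / ℓ ^ 2 * N c d -
      (kE E₀ c : ℚ)⁻¹ * ∑ᶠ σ ∈ {σ : MulAut V₀ | σ ∈ E₀ ∧ c * σ d ≠ 1},
        ((lf ρ v₀ (c * σ d)⁻¹ * lf ρ 1 (σ⁻¹ (c * σ d))⁻¹ : ℤ) : ℚ) / ℓ ^ 2 * D (c * σ d) ∈
          SOR.Rl ℓ) →
  (∀ c d : V₀, c ≠ 1 → d ≠ 1 → ∃ q ∈ SOR.Rl ℓ,
    ∑ t ∈ Finset.Icc 1 (ℓ - 1), ∑ s ∈ Finset.Icc 1 (ℓ - 1), N (c ^ t) (d ^ s) +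
      nE E₀ d * ∑ t ∈ Finset.Icc 1 (ℓ - 1), D (c ^ t) +
      nE E₀ c * ∑ s ∈ Finset.Icc 1 (ℓ - 1), D (d ^ s) +
      nE E₀ c * nE E₀ d * k = ℓ ^ 2 * q) →
  ((ℓ ^ 2 : ℕ) : ℤ) ∣ k

/-- K4B: four blocks with the same `V₀`, `E₀`, equal at the axes.

Proof.  `ρ` from DIX (5); `lf ρ v₀` is a lift (`Lf`).  PEX, PEM: `r`, `m` with `PE ℓ (ℓ^r) m (G₀ × G₁ × G₂ × G₃)` (for a common `r`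
use PEM (3); `CbxStmt` needs `0 < r`).  `k` = the maximum of the `K₀` of CPD for `x₁ = lf ρ v₀`, `x₂ = lf ρ 1`, over all
`c`, `d ∈ A₁ - 1`, `v₀ ∈ V₀`.  `BR` and the comparison blocks `B₀'`, .., `B₃'` for `k`, `r` from `CbxStmt` (`Stmts7.lean`); a common
`m` by PEM (for the product of the nine groups; the first claim, then the second claim for the embeddings).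
`D c = (L1 B₀ c - L1 B₀' c) - .. - .. + ..`, `N` in the same way with `L2` (rational numbers, HL12), `k` the alternating sum
of the numbers of characters (the ones of the comparison blocks are equal).  KAD: `D`, `N ∈ Rl ℓ` and the
invariance: HL12; the relation: CPD, a rational number in `RM M` is in `Rl ℓ`; the last one: HSM (2) for the eight
blocks (`Rgl`: DIX (4); the same `E₀`). -/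
def K4bStmt : Prop := ∀ (ℓ : ℕ) [Fact ℓ.Prime] (M : Ideal (integralClosure ℤ ℂ)) [M.IsMaximal],
  (ℓ : integralClosure ℤ ℂ) ∈ M → ℓ ≠ 2 → ∀ (V₀ : Type) [CommGroup V₀] [Finite V₀]
  (E₀ : Subgroup (MulAut V₀)) (A₁ A₂ : Subgroup V₀), Dx ℓ E₀ A₁ A₂ →
  ∀ (G₀ G₁ G₂ G₃ : Type) [Group G₀] [Finite G₀] [Group G₁] [Finite G₁] [Group G₂] [Finite G₂]
  [Group G₃] [Finite G₃] (B₀ : Bk (FF M) V₀ G₀) (B₁ : Bk (FF M) V₀ G₁)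
  (B₂ : Bk (FF M) V₀ G₂) (B₃ : Bk (FF M) V₀ G₃)
  (j₁ : G₁ →* G₀) (j₂ : G₂ →* G₀) (j₃ : G₃ →* G₂) (j₄ : G₃ →* G₁),
  Sd ℓ M E₀ B₀ → Sd ℓ M E₀ B₁ → Sd ℓ M E₀ B₂ → Sd ℓ M E₀ B₃ →
  Pr A₁ B₀ B₁ j₁ → Pr A₂ B₀ B₂ j₂ → Pr A₁ B₂ B₃ j₃ → Pr A₂ B₁ B₃ j₄ →
  ((ℓ ^ 2 : ℕ) : ℤ) ∣ ((IrrE M B₀.e).ncard : ℤ) - (IrrE M B₁.e).ncard - (IrrE M B₂.e).ncard +
    (IrrE M B₃.e).ncard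

end Pool.Agent.PP.SD
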