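import Pool.Agent.ASD.DefsD

/-!
# Squad ASD, statements 6: the blocks of the normalisers of the axes

Complete proofs in the docstrings.  For an `E₀`-invariant subgroup `A ≠ ⊥` of `V₀` the stabiliser `H` of the
subpair `(A, b A)` is `T C(A)`, `b A` is a block of `H`, and its local structure at `A` is the one of the
given block.  For two invariant subgroups `A₁`, `A₂` the stabiliser of `(A₁, ..)` in `H₂` is `H₁ ⊓ H₂`.
-/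

open scoped BigOperators

noncomputable section

namespace Pool.Agent.PP.SD

open Pool.Agent.Helper51_AWC Pool.Agent.Helper79_WRA Pool.Agent.PP Pool.Agent.PP.KF
open Pool.Agent.PP.K9 Pool.Agent.PP.K9.H97 Pool.Agent.PP.H75 Pool.Agent.PP.T3 Pool.Agent.PP.SO

attribute [local instance] Ideal.Quotient.field

section defs

variable {F V₀ G : Type} [CommGroup V₀] [Group G]

/-- the stabiliser of the subpair `(A, b A)` -/
def HA (B : Bk F V₀ G) (A : Subgroup V₀) : Subgroup G :=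
  Subgroup.normalizer ((A.map B.i : Subgroup G) : Set G) ⊓ stabF (B.b A)

end defs

/-- HAT: the stabiliser of `(A, b A)` is `T C(A)`.

Proof.  `x ∈ HA`: let `x i(v) x⁻¹ = i(f v)` for `v ∈ A` (`f v ∈ A`, `f` maps `A` onto `A`), `cj x (b A) = b A` (`stabF`); FUD with
`W = W' = A`: `t ∈ T` with `t⁻¹ x ∈ C A`.  Conversely: `t ∈ T` acts on `V` by `σ ∈ E₀` (`act`), `σ A = A`, so
`t` normalises `i(A)` and `cj t (b A) = b A` (CJD (1)); `c ∈ C A` centralises `i(A)`, and `cj c (b A) = b A` because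
`b A` is a class function of `C A`.  The last claim: `T ≤ HA` (`t = x`), `C A ≤ HA` (`t = 1`), `i(V₀) ≤ C(V) ≤ C A`. -/
def HatStmt : Prop := ∀ (ℓ : ℕ) [Fact ℓ.Prime] (M : Ideal (integralClosure ℤ ℂ)) [M.IsMaximal],
  (ℓ : integralClosure ℤ ℂ) ∈ M → ℓ ≠ 2 → ∀ (V₀ G : Type) [CommGroup V₀] [Finite V₀] [Group G]
  [Finite G] (E₀ : Subgroup (MulAut V₀)), Fq ℓ V₀ E₀ → ∀ B : Bk (FF M) V₀ G, Sb ℓ M E₀ B →
  ∀ A : Subgroup V₀, (∀ σ ∈ E₀, ∀ v ∈ A, σ v ∈ A) →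
  (∀ x, x ∈ HA B A ↔ ∃ t ∈ Tg B.i.range B.g, t⁻¹ * x ∈ B.C A) ∧
  Tg B.i.range B.g ≤ HA B A ∧ B.C A ≤ HA B A ∧ B.C ⊤ ≤ HA B A ∧ B.i.range ≤ HA B A ∧
  B.C ⊤ ≤ Tg B.i.range B.g

/-- UNE: the block of `H` is determined by `(V, g)`.

Proof.  `br_V(e) g = g`, `br_V(e') g = g`.  `br_V` is multiplicative on the class functions (`V` is an `ℓ`-subgroup),
so `br_V(e e') g = br_V(e) br_V(e') g = g ≠ 0`, hence `e e' ≠ 0`; two different blocks have the product `0`. -/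
def UneStmt : Prop := ∀ (ℓ : ℕ) [Fact ℓ.Prime] (M : Ideal (integralClosure ℤ ℂ)) [M.IsMaximal],
  (ℓ : integralClosure ℤ ℂ) ∈ M → ∀ (H : Type) [Group H] [Finite H] (V : Subgroup H)
  (g e e' : H → FF M), Ld ℓ e V g → Ld ℓ e' V g → e = e'

/-- INA: the block of the stabiliser of `(A, b A)`.

Proof.  `C A ≤ HA B A = j(H)`, `T ≤ j(H)` (HAT).  `e' = b A ∘ j`, `g' = g ∘ j`, `i'` with `j i' = i`.
(1) `e'` is a block of `H`.  It is a central idempotent of `F H` (`b A` is supported in `C A`, an idempotent, and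
invariant under `j(H)`: `stabF`).  Let `f ≠ 0` be a central idempotent of `F H` with `e' f = f`.  `A' = i'(A)` is a normal
`ℓ`-subgroup of `H`, so `f` is supported in `C_H(A') = j⁻¹(C A)` (`supp_cent` in `Helper32_AT2/FST.lean`); so `f ∘ j⁻¹`
(extended by zero) is a central idempotent of `F (C A)` under the block `b A`, so it is `b A`, `f = e'`.
(2) `Ld ℓ e' i'.range g'`.  `V` is good for `e'`: `br_V(b A) g = g ≠ 0` (`lb`), the centraliser of `i'(V₀)` in `H` is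
`j⁻¹(C(V))`, `C(V) ≤ C A`.  Let `Q ≤ H` be an `ℓ`-subgroup, good for `e'`: `b A (x) ≠ 0` for some
`x ∈ C(j Q) ∩ C A`.  `Q' = j(Q) i(A)` is an `ℓ`-subgroup (`i(A)` is normal in `j(H)`), `C(Q') = C(j Q) ∩ C A`.  `e b A = b A`
in `F (C A)` (`lb.und`); `j(Q)` acts on `C A` and fixes `e` restricted to `C A` and `b A`; the restriction to
`C(j Q) ∩ C A` is multiplicative on the elements fixed by `j(Q)` (Brauer homomorphism for the `ℓ`-group `j(Q)`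
acting on `C A`), so the restriction of `e` is not `0`: `Q'` is good for `e`, `|Q| ≤ |Q'| ≤ |V|`.  `und`: `lb.gam`.
(3) The inertial group of `(i'.range, g')` is `j⁻¹(T)`, `T ≤ j(H)`: the conditions of SYD with the same `E₀`.
SYD: `B'` with `B'.e = e'`, `B'.g = g'`, `B'.i = i'`, `Sd ℓ M E₀ B'`.
(4) `Pr`: let `W ≥ A`.  `C W ≤ C A ≤ j(H)`, the centraliser of `i'(W)` in `H` is `j⁻¹(C W)`; `b W ∘ j` is a block of it,
over `g'`, and under `e'`: `b W` is under `b A` (as in RDA: `e` restricted to `C W` is the sum of the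
restrictions of the blocks of `C A` under `e`, one of them, `β`, has `β b W = b W` on `C W`, so `br_V(β) g = g`,
`β = b A` by LBU (2)).  So `B'.b W = b W ∘ j` by LBU (2) for `H`. -/
def InaStmt : Prop := ∀ (ℓ : ℕ) [Fact ℓ.Prime] (M : Ideal (integralClosure ℤ ℂ)) [M.IsMaximal],
  (ℓ : integralClosure ℤ ℂ) ∈ M → ℓ ≠ 2 → ∀ (V₀ G H : Type) [CommGroup V₀] [Finite V₀] [Group G]
  [Finite G] [Group H] [Finite H] (E₀ : Subgroup (MulAut V₀)), Fq ℓ V₀ E₀ →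
  ∀ B : Bk (FF M) V₀ G, Sb ℓ M E₀ B → ∀ A : Subgroup V₀, A ≠ ⊥ →
  (∀ σ ∈ E₀, ∀ v ∈ A, σ v ∈ A) → ∀ j : H →* G, Function.Injective j → j.range = HA B A →
  ∃ B' : Bk (FF M) V₀ H, Sd ℓ M E₀ B' ∧ Pr A B B' j ∧ (∀ h, B'.e h = B.b A (j h)) ∧
    (B'.i.range.map j = B.i.range) ∧ (∀ h, j h ∈ Tg B.i.range B.g ↔ h ∈ Tg B'.i.range B'.g) ∧
    (A.map B'.i).Normal

/-- INB: the three blocks.

Proof.  `H₁ = HA B A₁`, `H₂ = HA B A₂`.  INA for `B`, `A₁`, `H₁` gives `B₁`, INA for `B`, `A₂`, `H₂` gives `B₂`.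
(1) `HA B₂ A₁ = H₁ ⊓ H₂` (as subgroups of `H₂`).  By HAT for `B₂`, `x ∈ H₂` is in `HA B₂ A₁` iff `t⁻¹ x` centralises
`i(A₁)` for some `t ∈ T` (the inertial group of `B₂` is `T`, INA).  If so, `x ∈ H₁` (HAT for `B`).  Conversely let
`x ∈ H₁ ⊓ H₂`: `t⁻¹ x ∈ C(A₁)` with `t ∈ T ≤ H₂` (HAT for `B`).  In the same way `HA B₁ A₂ = H₁ ⊓ H₂`.
(2) INA for `B₂`, `A₁` and the inclusion of `H₁ ⊓ H₂` in `H₂` gives `B₃` with `Pr A₁ B₂ B₃`; INA for `B₁`, `A₂` and the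
inclusion in `H₁` gives `B₃'` with `Pr A₂ B₁ B₃'`.  `B₃.i = B₃'.i`, `B₃.g = B₃'.g` (both are the restrictions of `i`, `g`), so
`B₃.e = B₃'.e` (UNE; `Sb.ld`), and `B₃.b W = B₃'.b W` for all `W` (LBU (2)).  So `Pr A₂ B₁ B₃`.
(3) The last claims: INA for `B`, `A₁`; `B`, `A₂`; `B₃`: `i(A₁)`, `i(A₂)` are normal in `H₁ ⊓ H₂`. -/
def InbStmt : Prop := ∀ (ℓ : ℕ) [Fact ℓ.Prime] (M : Ideal (integralClosure ℤ ℂ)) [M.IsMaximal],
  (ℓ : integralClosure ℤ ℂ) ∈ M → ℓ ≠ 2 → ∀ (V₀ G : Type) [CommGroup V₀] [Finite V₀] [Group G]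
  [Finite G] (E₀ : Subgroup (MulAut V₀)), Fq ℓ V₀ E₀ → ∀ A₁ A₂ : Subgroup V₀, A₁ ≠ ⊥ → A₂ ≠ ⊥ →
  (∀ σ ∈ E₀, ∀ v ∈ A₁, σ v ∈ A₁) → (∀ σ ∈ E₀, ∀ v ∈ A₂, σ v ∈ A₂) →
  ∀ B : Bk (FF M) V₀ G, Sb ℓ M E₀ B → ∀ H₁ H₂ H₃ : Subgroup G, H₁ = HA B A₁ → H₂ = HA B A₂ →
  H₃ = H₁ ⊓ H₂ → ∀ (h₁ : H₃ ≤ H₁) (h₂ : H₃ ≤ H₂),
  ∃ (B₁ : Bk (FF M) V₀ H₁) (B₂ : Bk (FF M) V₀ H₂) (B₃ : Bk (FF M) V₀ H₃),
    Sd ℓ M E₀ B₁ ∧ Sd ℓ M E₀ B₂ ∧ Sd ℓ M E₀ B₃ ∧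
    Pr A₁ B B₁ H₁.subtype ∧ Pr A₂ B B₂ H₂.subtype ∧
    Pr A₁ B₂ B₃ (Subgroup.inclusion h₂) ∧ Pr A₂ B₁ B₃ (Subgroup.inclusion h₁) ∧
    B.i.range ≤ H₃ ∧ Tg B.i.range B.g ≤ H₃ ∧
    (∀ x : H₁, x ∈ Tg B₁.i.range B₁.g ↔ (x : G) ∈ Tg B.i.range B.g) ∧
    (∀ x : H₂, x ∈ Tg B₂.i.range B₂.g ↔ (x : G) ∈ Tg B.i.range B.g) ∧
    (∀ x : H₃, x ∈ Tg B₃.i.range B₃.g ↔ (x : G) ∈ Tg B.i.range B.g) ∧
    (A₁.map B₁.i).Normal ∧ (A₂.map B₂.i).Normal ∧ (A₁.map B₃.i).Normal ∧ (A₂.map B₃.i).Normal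

end Pool.Agent.PP.SD
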