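import Pool.Agent.ASD.Stmts5
import Pool.Agent.ASO.Stmts7

/-!
# Squad ASD, statements 7: the comparison group with exact axes

`V₀` elementary abelian of order `ℓ ^ 2`, `E₀` a group of automorphisms of `V₀` of order prime to `ℓ`,
`R = V₀ : E₀`.  The comparison group is `G = K : R` with an elementary abelian `p`-group `K` (squad ASO,
`Stmts7.lean`), such that `|C_K(W)| = U W` modulo `ℓ ^ k` for the given numbers `U W`, and `C_K(W) = 1`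
for the `W` with `P W` (a given property, invariant under `E₀`).  For these `W` the centraliser of `W`
in `G` is contained in `R`.  Complete proofs in the docstrings.
-/

open scoped BigOperators

noncomputable section

namespace Pool.Agent.PP.SD

open Pool.Agent.Helper51_AWC Pool.Agent.Helper79_WRA Pool.Agent.PP Pool.Agent.PP.KF
open Pool.Agent.PP.K9 Pool.Agent.PP.K9.H97 Pool.Agent.PP.H75 Pool.Agent.PP.T3 Pool.Agent.PP.SO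

attribute [local instance] Ideal.Quotient.field

/-- CBG: the comparison blocks, general form.

Proof.  The group is the one of `SO.CmgStmt` (`Helper43_ASO/CMG.lean`) with `a(W) = 0` if `P W`; in the
other cases `a(W)` is a function of `U W`.  Then the set of the `(λ, i)` with `W ≤ ker λ` is empty if `P W`
(`W` of order `ℓ`: `ker λ = W`; `W = ⊤`: always), so `C_K(W) = 1`.  The blocks are the ones of `SO.CmiStmt`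
(`Helper76_ASO/CMI.lean`): `e` is `1` on `K` and `0` elsewhere, `g = one1`, `b W` is `1` on `K ∩ C(W)` and `0`
elsewhere, `D W = 1`, `S W = 1`; `BR` is the same for the group `R` (`K = 1`), `j : R → G` the inclusion.
`C(W) = (K ∩ C(W)) (V₀ : St E₀ W)`.  If `C_K(W) = 1` then `C(W) ≤ R`, and `b W'`, `W ≤ W'`, is `one1` on `C(W')`. -/
def CbgStmt : Prop := ∀ (ℓ : ℕ) [Fact ℓ.Prime] (M : Ideal (integralClosure ℤ ℂ)) [M.IsMaximal],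
  (ℓ : integralClosure ℤ ℂ) ∈ M → ℓ ≠ 2 → ∀ (V₀ : Type) [CommGroup V₀] [Finite V₀]
  (E₀ : Subgroup (MulAut V₀)), Fq ℓ V₀ E₀ → ∀ P : Subgroup V₀ → Prop,
  (∀ W, P W → W ≠ ⊥ ∧ ∀ σ ∈ E₀, P (W.map σ.toMonoidHom)) →
  ∃ (H : Type) (_ : Group H) (_ : Finite H) (BR : Bk (FF M) V₀ H), Sd ℓ M E₀ BR ∧
    (∀ r, 0 < r → ∃ m, PE ℓ (ℓ ^ r) m H) ∧
    ∀ (k : ℕ) (U : Subgroup V₀ → ℚ), U ⊤ = 1 →
    (∀ W, W ≠ ⊥ → ¬ P W → ∃ q ∈ SOR.Rl ℓ, U W = 1 + ℓ * q) →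
    (∀ W, W ≠ ⊥ → ¬ P W → ∀ σ ∈ E₀, U (W.map σ.toMonoidHom) = U W) →
    ∃ (G : Type) (_ : Group G) (_ : Finite G) (B : Bk (FF M) V₀ G) (j : H →* G) (κ : Subgroup V₀ → ℕ),
      Sd ℓ M E₀ B ∧ (∀ A, P A → Pr A B BR j) ∧ (∀ r, 0 < r → ∃ m, PE ℓ (ℓ ^ r) m G) ∧
      (IrrE M B.e).ncard = (Irr (V₀ ⋊[E₀.subtype] E₀)).ncard ∧ (∀ W, B.D W = 1) ∧ (∀ W, B.S W = 1) ∧
      κ ⊤ = 1 ∧ ∀ W, W ≠ ⊥ → Nat.card (B.C W) = ℓ ^ 2 * Nat.card (St E₀ W) * κ W ∧ (P W → κ W = 1) ∧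
        (¬ P W → ∃ q ∈ SOR.Rl ℓ, (κ W : ℚ) - U W = ℓ ^ k * q)

/-- CBX: the comparison blocks for `Dx`.

Proof.  CBG for `P W := W = A₁ ∨ W = A₂` (`Dx.s1`, `Dx.s2`: `A₁`, `A₂` are mapped to themselves; `A₁`, `A₂ ≠ ⊥`) and
`U = B.U`.  `Of A₁ A₂ W` means `W ≠ ⊥`, not `P W`; then `Rw E₀ W` (DIX (1)), `|St E₀ W| = 1`.  `B.U ⊤ = B.S ⊤ = ±1`, and
`B.U ⊤ = 1 + ℓ q` (`Sd.un`), `ℓ ≠ 2`, so `B.U ⊤ = 1`.  `B.U` is invariant (CJD (6)).  `B'.U W = |C W|/|C ⊤| = κ W`. -/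
def CbxStmt : Prop := ∀ (ℓ : ℕ) [Fact ℓ.Prime] (M : Ideal (integralClosure ℤ ℂ)) [M.IsMaximal],
  (ℓ : integralClosure ℤ ℂ) ∈ M → ℓ ≠ 2 → ∀ (V₀ : Type) [CommGroup V₀] [Finite V₀]
  (E₀ : Subgroup (MulAut V₀)) (A₁ A₂ : Subgroup V₀), Dx ℓ E₀ A₁ A₂ →
  ∃ (H : Type) (_ : Group H) (_ : Finite H) (BR : Bk (FF M) V₀ H) (kR : ℕ), Sd ℓ M E₀ BR ∧
    (∀ r, 0 < r → ∃ m, PE ℓ (ℓ ^ r) m H) ∧
    ∀ (G : Type) [Group G] [Finite G] (B : Bk (FF M) V₀ G), Sd ℓ M E₀ B → ∀ r k : ℕ, 0 < r →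
    ∃ (G' : Type) (_ : Group G') (_ : Finite G') (B' : Bk (FF M) V₀ G') (j : H →* G'),
      Sd ℓ M E₀ B' ∧ (∃ m, PE ℓ (ℓ ^ r) m G') ∧ Pr A₁ B' BR j ∧ Pr A₂ B' BR j ∧
      (∀ W, Of A₁ A₂ W → ∃ q ∈ SOR.Rl ℓ, B.U W - B'.U W = ℓ ^ k * q) ∧ (IrrE M B'.e).ncard = kR

end Pool.Agent.PP.SD
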