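import Pool.Agent.ASD.Stmts5
import Pool.Agent.ASO.Stmts8
import Pool.Agent.AT6.Stmts1

/-!
# Squad ASD, statements 8: the numbers of characters, the final deduction

Complete proofs in the docstrings.  `ln e` is the number of the irreducible modular characters in
`e` (`T3.ln`), `lT B` the one of the block `g` of the inertial group.
-/

open scoped BigOperators

noncomputable section

namespace Pool.Agent.PP.SD

open Pool.Agent.Helper51_AWC Pool.Agent.Helper79_WRA Pool.Agent.PP Pool.Agent.PP.KF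
open Pool.Agent.PP.K9 Pool.Agent.PP.K9.H97 Pool.Agent.PP.H75 Pool.Agent.PP.T3 Pool.Agent.PP.SO

attribute [local instance] Ideal.Quotient.field

/-- the number of the irreducible modular characters of the inertial group which are in `g` -/
def lT {F V₀ G : Type} [Field F] [CommGroup V₀] [Group G] (B : Bk F V₀ G) : ℕ :=
  ln (fun t : Tg B.i.range B.g => B.g t)

/-! ## 1. The number of ordinary characters -/

/-- PML: the sum of the diagonal entries over all characters.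

Proof.  `C = C(v)`, `s ∈ C` regular.  As in `T6.IpsStmt` (or by it: `∑_g sv v b χ g conj χ(g) =
|G| Pm v b χ χ`): `gv C (v s) b χ = ∑_(κ ∈ b) (χ|C, κ) κ(v s)`, `κ(v s) = c κ(s)`, and for `κ ∈ b`, `κ' ∉ b` the sum
of `κ(s) conj κ'(s)` over the regular `s` is `0` (`K9.RotStmt`), so `Pm v b χ χ =
|C|⁻¹ ∑_s gv C (v s) b χ conj χ(v s)`.  For fixed `s` let `F(g) = ∑_(χ ∈ Irr G) χ(g) conj χ(v s)`, the number of
the `x ∈ G` with `x g x⁻¹ = v s` (column orthogonality); `∑_χ gv C (v s) b χ conj χ(v s)` is the value at `v s`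
of the component of `F|C` in `b`.  For `g ∈ C` with `ℓ`-part `v` such an `x` is in `C`, so there
`F(g) = ∑_(κ ∈ Irr C) κ(g) conj κ(v s)`, the same for all `g ∈ C` up to a class function of `C` which vanishes at the
elements with `ℓ`-part `v`; the component in `b` of such a function vanishes there, too (translate
with the central element `v`; `K9.RotStmt`).  So the value is `∑_(κ ∈ b) |κ(v s)|² = ∑_(κ ∈ b) |κ(s)|²`.
`T3.LrkStmt`. -/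
def PmlStmt : Prop := ∀ (ℓ : ℕ) [Fact ℓ.Prime] (M : Ideal (integralClosure ℤ ℂ)) [M.IsMaximal],
  (ℓ : integralClosure ℤ ℂ) ∈ M → ∀ (G : Type) [Group G] [Finite G] (v : G), El ℓ v →
  ∀ b : G → FF M, Ix (Cu v) b →
    ∑ᶠ χ ∈ Irr G, T6.Pm M ℓ v b χ χ = (ln (fun t : Cu v => b t) : ℂ)

/-- KLD: the number of ordinary characters.

Proof.  Second claim: `b W` has the defect group `V` and inertial index one (LBD), so its inertial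
quotient acts freely: `ln ≤ 1` (`T8.LfrStmt`, `V ≠ ⊥`), `1 ≤ ln` (`K9.LbdStmt`).
First claim: `b ⟨v⟩` is the local block of `i(v)` (`T3.Lc`; `C ⟨v⟩ = C(i v)`).  `T6.CplStmt` for `χ ∈ e`:
`∑_(v ∈ V) Mm v (b v) χ χ = |V| ix`; `ix = |E₀|` (LBD for `W = ⊥`, or `act`, `sur`), the factor
`|T ∩ C(i v) : C(V)|` in `Mm` is `|Es E₀ v|` (LBD for `⟨v⟩`, LSB).  Add over the `k(e)` characters `χ ∈ e`.  If `χ ∉ e`
then `gv (v s) (b v) χ = 0` for all regular `s` (`T3.SmgStmt` if `v ≠ 1`; clear if `v = 1`, `b 1 = e`), so the sum of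
`Pm v (b v) χ χ` over `χ ∈ e` is the sum over `Irr G`, PML. -/
def KldStmt : Prop := ∀ (ℓ : ℕ) [Fact ℓ.Prime] (M : Ideal (integralClosure ℤ ℂ)) [M.IsMaximal],
  (ℓ : integralClosure ℤ ℂ) ∈ M → ℓ ≠ 2 → ∀ (V₀ G : Type) [CommGroup V₀] [Finite V₀] [Group G]
  [Finite G] (E₀ : Subgroup (MulAut V₀)), Fq ℓ V₀ E₀ → ∀ B : Bk (FF M) V₀ G, Sb ℓ M E₀ B →
  Nat.card E₀ * (IrrE M B.e).ncard = ∑ᶠ v : V₀, Nat.card (Es E₀ v) *
      ln (fun t : B.C (Subgroup.zpowers v) => B.b (Subgroup.zpowers v) t) ∧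
  ∀ W, Rw E₀ W → ln (fun t : B.C W => B.b W t) = 1

/-! ## 2. The inertial group -/

/-- LNT: the theorem of Fong and Reynolds for the number of modular characters.

Proof.  `H75.Bd.yy` (`Helper75_PP/Fr.lean`; its hypotheses are theorems of the library, compare
`Helper83_AT2/FRS.lean`) for `R = ⊥`: `YY ℓ ⊥ e = |N : st b| YY ℓ ⊥ (e b | st b)`.  The only chain of
`ℓ`-subgroups of `⊥` which begins with `⊥` is `{⊥}`, its stabiliser is the whole group: `YY ℓ ⊥ e = |N| ln e`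
(`lnum ⊤ e = ln e`), and in the same way for `st b`.  `e b = b`. -/
def LntStmt : Prop := ∀ (ℓ : ℕ) [Fact ℓ.Prime] (F : Type) [Field F], GoodF ℓ F → ∀ (N : Type)
  [Group N] [Finite N] (C : Subgroup N), C.Normal → ∀ e : N → F, IsBlk e → ∀ b : N → F, Bx C b →
  mulF e b = b → ln e = ln (fun t : st b => b t)

/-- LNN: the block of the normaliser of the defect group.

Proof.  `V = B.i.range`, `N = N(V)`, `f = br V e | N` is a block (`T3.NvtStmt`, `K9.FmgStmt`), `f g = g` (`ld.und`), `C(V)` is normal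
in `N`, LNT.  The stabiliser of `g` in `N` is `Tg V g`; both are subgroups of `G` up to the embedding of `N`
(transport `ln` along the isomorphism). -/
def LnnStmt : Prop := ∀ (ℓ : ℕ) [Fact ℓ.Prime] (M : Ideal (integralClosure ℤ ℂ)) [M.IsMaximal],
  (ℓ : integralClosure ℤ ℂ) ∈ M → ∀ (V₀ G : Type) [CommGroup V₀] [Finite V₀] [Group G]
  [Finite G] (E₀ : Subgroup (MulAut V₀)) (B : Bk (FF M) V₀ G), Sb ℓ M E₀ B →
  ln (fun t : Subgroup.normalizer (B.i.range : Set G) => br B.i.range B.e t) = lT B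

/-- LNJ: the inertial groups of a pair.

Proof.  `j` maps `T' = Tg B'.i.range B'.g` onto `T = Tg B.i.range B.g`, `B'.g = B.g ∘ j`; transport `ln`.  Let `t' ∈ T'`: `j t'`
normalises `V = j(V')`, and `B.g ((j t') x (j t')⁻¹) = B.g x` for `x` in the image of `j`; `B.g` vanishes outside of
`C(V)`, which is contained in `C(i A)`, so in the image of `j` (`cen`).  Let `t ∈ T`, inducing `σ ∈ E₀`
(`act` for `B`), `t' ∈ T'` inducing `σ` (`sur` for `B'`): `(j t')⁻¹ t` centralises `V`, so it is in the image of `j`,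
`t = j t''`, and `t'' ∈ T'` (`j` is injective). -/
def LnjStmt : Prop := ∀ (ℓ : ℕ) [Fact ℓ.Prime] (M : Ideal (integralClosure ℤ ℂ)) [M.IsMaximal],
  (ℓ : integralClosure ℤ ℂ) ∈ M → ∀ (V₀ G H : Type) [CommGroup V₀] [Finite V₀] [Group G]
  [Finite G] [Group H] [Finite H] (E₀ : Subgroup (MulAut V₀)) (A : Subgroup V₀)
  (B : Bk (FF M) V₀ G) (B' : Bk (FF M) V₀ H) (j : H →* G), Sb ℓ M E₀ B → Sb ℓ M E₀ B' →
  Pr A B B' j → lT B' = lT B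

/-- LNH: groups with a normal `ℓ`-subgroup.

Proof.  `i(A) ≠ 1` is a normal `ℓ`-subgroup, so `opCore ℓ G ≠ ⊥` and `YY ℓ ⊤ e = 0` (`YzrStmt`,
`Helper96_PP/Trn.lean`, `Q = ⊤`).  `K9.ChvStmt` (`|V| = ℓ ^ 2`): `ln e = ln (br V e | N(V))`.  LNN. -/
def LnhStmt : Prop := ∀ (ℓ : ℕ) [Fact ℓ.Prime] (M : Ideal (integralClosure ℤ ℂ)) [M.IsMaximal],
  (ℓ : integralClosure ℤ ℂ) ∈ M → ∀ (V₀ G : Type) [CommGroup V₀] [Finite V₀] [Group G]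
  [Finite G] (E₀ : Subgroup (MulAut V₀)), Fq ℓ V₀ E₀ → ∀ B : Bk (FF M) V₀ G, Sb ℓ M E₀ B →
  ∀ A : Subgroup V₀, A ≠ ⊥ → (A.map B.i).Normal → ln B.e = lT B

/-! ## 3. Four groups -/

/-- G4D: the four groups (output of block 6, `Stmts6.lean`): `G₁ = N(i A₁, b A₁)`, `G₂ = N(i A₂, b A₂)`,
`G₃ = G₁ ∩ G₂`. -/
def G4dStmt : Prop := ∀ (ℓ : ℕ) [Fact ℓ.Prime] (M : Ideal (integralClosure ℤ ℂ)) [M.IsMaximal],
  (ℓ : integralClosure ℤ ℂ) ∈ M → ℓ ≠ 2 → ∀ (V₀ G : Type) [CommGroup V₀] [Finite V₀] [Group G]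
  [Finite G] (E₀ : Subgroup (MulAut V₀)) (A₁ A₂ : Subgroup V₀), Dx ℓ E₀ A₁ A₂ →
  ∀ B : Bk (FF M) V₀ G, Sd ℓ M E₀ B →
  ∃ (G₁ G₂ G₃ : Type) (_ : Group G₁) (_ : Finite G₁) (_ : Group G₂) (_ : Finite G₂)
    (_ : Group G₃) (_ : Finite G₃) (B₁ : Bk (FF M) V₀ G₁) (B₂ : Bk (FF M) V₀ G₂)
    (B₃ : Bk (FF M) V₀ G₃) (j₁ : G₁ →* G) (j₂ : G₂ →* G) (j₃ : G₃ →* G₂) (j₄ : G₃ →* G₁),
    Sd ℓ M E₀ B₁ ∧ Sd ℓ M E₀ B₂ ∧ Sd ℓ M E₀ B₃ ∧
    Pr A₁ B B₁ j₁ ∧ Pr A₂ B B₂ j₂ ∧ Pr A₁ B₂ B₃ j₃ ∧ Pr A₂ B₁ B₃ j₄ ∧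
    (A₁.map B₁.i).Normal ∧ (A₂.map B₂.i).Normal ∧ (A₁.map B₃.i).Normal

/-- L4D: the numbers of modular characters of four groups.

Proof.  KLD for the four data.  The terms for `v ∉ A₁ ∪ A₂` are `1` (`Of`, DIX (1): `Rw`, `Es E₀ v` is trivial), so
they cancel.  For `v ∈ A₁`, `v ≠ 1` (`⟨v⟩ = A₁`) the terms for `B₀`, `B₁` are equal and the terms for `B₂`, `B₃` are
equal (PCH, last claim), for `v ∈ A₂` the ones for `B₀`, `B₂` and for `B₁`, `B₃`.  `v = 1`: `|Es E₀ 1| = |E₀|`,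
`b ⊥ = e` (`lb`: `C ⊥ = ⊤`, a block of `G` under `e`).  So `|E₀|` times the alternating sum of the `k(B_i)` is
`|E₀|` times the alternating sum of the `ln (B_i).e`; K4B. -/
def L4dStmt : Prop := ∀ (ℓ : ℕ) [Fact ℓ.Prime] (M : Ideal (integralClosure ℤ ℂ)) [M.IsMaximal],
  (ℓ : integralClosure ℤ ℂ) ∈ M → ℓ ≠ 2 → ∀ (V₀ : Type) [CommGroup V₀] [Finite V₀]
  (E₀ : Subgroup (MulAut V₀)) (A₁ A₂ : Subgroup V₀), Dx ℓ E₀ A₁ A₂ →
  ∀ (G₀ G₁ G₂ G₃ : Type) [Group G₀] [Finite G₀] [Group G₁] [Finite G₁] [Group G₂] [Finite G₂]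
  [Group G₃] [Finite G₃] (B₀ : Bk (FF M) V₀ G₀) (B₁ : Bk (FF M) V₀ G₁)
  (B₂ : Bk (FF M) V₀ G₂) (B₃ : Bk (FF M) V₀ G₃)
  (j₁ : G₁ →* G₀) (j₂ : G₂ →* G₀) (j₃ : G₃ →* G₂) (j₄ : G₃ →* G₁),
  Sd ℓ M E₀ B₀ → Sd ℓ M E₀ B₁ → Sd ℓ M E₀ B₂ → Sd ℓ M E₀ B₃ →
  Pr A₁ B₀ B₁ j₁ → Pr A₂ B₀ B₂ j₂ → Pr A₁ B₂ B₃ j₃ → Pr A₂ B₁ B₃ j₄ →
  ((ℓ ^ 2 : ℕ) : ℤ) ∣ (ln B₀.e : ℤ) - ln B₁.e - ln B₂.e + ln B₃.e

/-- S2D: the theorem for the datum of a block.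

Proof.  G4D, L4D: `ℓ ^ 2 ∣ ln e - ln e₁ - ln e₂ + ln e₃`.  LNH: `ln e₁ = lT B₁`, `ln e₂ = lT B₂`, `ln e₃ = lT B₃`
(`A₁`, `A₂ ≠ ⊥`), and LNJ: they are equal to `lT B`.  So `ℓ ^ 2 ∣ ln e - lT B`.  KLD for `B` and the term of
`v ≠ 1` (they are positive: `1 ≤ ln` by `K9.LbdStmt`): `ln e < k(e) ≤ ℓ ^ 2` (`K9.KlStmt`); in the same way for
the block `br V e` of `N(V)` (`T3.NvtStmt`; it has a datum with the same `V₀`, `E₀`: SYD, compare `ESY` of squad ASO;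
or the datum `B'` of `N(V)` with `Pr ⊤ B B' j`): `lT B = ln (br V e | N(V)) < ℓ ^ 2` (LNN).  So `ln e = lT B` and `K9.ChvStmt`
with LNN give `YY = 0`. -/
def S2dStmt : Prop := ∀ (ℓ : ℕ) [Fact ℓ.Prime] (M : Ideal (integralClosure ℤ ℂ)) [M.IsMaximal],
  (ℓ : integralClosure ℤ ℂ) ∈ M → ℓ ≠ 2 → ∀ (V₀ G : Type) [CommGroup V₀] [Finite V₀] [Group G]
  [Finite G] (E₀ : Subgroup (MulAut V₀)) (A₁ A₂ : Subgroup V₀), Dx ℓ E₀ A₁ A₂ →
  ∀ B : Bk (FF M) V₀ G, Sd ℓ M E₀ B → YY ℓ ⊤ B.e = 0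

/-! ## 4. Abelian inertial quotients -/

/-- ABD: the abelian groups `E₀`.

Proof.  If `Fr` is false there are `σ ∈ E₀`, `σ ≠ 1`, and `v ≠ 1` with `σ v = v`.  Let `C` be the subgroup of the
elements fixed by `σ` and `D` the image of `w ↦ σ w w⁻¹` (a homomorphism with kernel `C`).  `V₀ = C × D`: let `n` be the
order of `σ` (`σ ^ n = 1`, `n` is prime to `ℓ` as it divides `|E₀|`); if `w = σ u u⁻¹ ∈ C` then
`σ ^ n u = w ^ n u`, so `w ^ n = 1`, `w = 1`; and `|C| |D| = |V₀|`.  `C ≠ 1` (`v`), `D ≠ 1` (`σ ≠ 1`), so both have order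
`ℓ`.  `E₀` is commutative, so all `τ ∈ E₀` map `C` and `D` to themselves.  If some `τ ∈ E₀` acts non trivially on
`C`: `A₁ = C`, `A₂ = D` (`cs`: `σ`).  If not: `A₁ = D` (`σ` acts non trivially on `D`, because `σ ≠ 1`), `A₂ = C` (`cs`: the
second case). -/
def AbdStmt : Prop := ∀ (ℓ : ℕ) [Fact ℓ.Prime] (V₀ : Type) [CommGroup V₀] [Finite V₀]
  (E₀ : Subgroup (MulAut V₀)), Fq ℓ V₀ E₀ → (∀ σ ∈ E₀, ∀ τ ∈ E₀, σ * τ = τ * σ) →
  Fr ℓ V₀ E₀ ∨ ∃ A₁ A₂ : Subgroup V₀, Dx ℓ E₀ A₁ A₂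

/-- ESD: the group `V₀` and the automorphisms `E₀`.

Proof.  As `SO.EsyStmt` (`Helper43_ASO/ESY.lean`): `V₀ = V`, `i` the inclusion, `E₀` the set of the automorphisms
`v ↦ t v t⁻¹`, `t ∈ T`.  `|E₀| = ix V γ` (`T` acts with kernel `C(V)`) is prime to `ℓ` (`K9.InxStmt`).  If
`s t s⁻¹ t⁻¹` centralises `V` then the automorphisms of `s` and `t` commute. -/
def EsdStmt : Prop := ∀ (ℓ : ℕ) [Fact ℓ.Prime] (M : Ideal (integralClosure ℤ ℂ)) [M.IsMaximal],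
  (ℓ : integralClosure ℤ ℂ) ∈ M → ∀ (G : Type) [Group G] [Finite G] (e : G → FF M)
  (V : Subgroup G) (γ : G → FF M), Ld ℓ e V γ → (∀ v ∈ V, v ^ ℓ = 1) → Nat.card V = ℓ ^ 2 →
  ∃ (V₀ : Type) (_ : CommGroup V₀) (_ : Finite V₀) (E₀ : Subgroup (MulAut V₀)) (i : V₀ →* G),
    Fq ℓ V₀ E₀ ∧ Function.Injective i ∧ i.range = V ∧
    (∀ t ∈ Tg V γ, ∃ σ ∈ E₀, ∀ v, t * i v * t⁻¹ = i (σ v)) ∧
    (∀ σ ∈ E₀, ∃ t ∈ Tg V γ, ∀ v, t * i v * t⁻¹ = i (σ v)) ∧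
    ((∀ s ∈ Tg V γ, ∀ t ∈ Tg V γ, s * t * s⁻¹ * t⁻¹ ∈ Subgroup.centralizer (V : Set G)) →
      ∀ σ ∈ E₀, ∀ τ ∈ E₀, σ * τ = τ * σ) ∧
    (Fr ℓ V₀ E₀ → T8.Fr V γ)

/-- S2E: the theorem for block idempotents.

Proof.  ESD.  ABD: if `Fr ℓ V₀ E₀`: `SO.S2aStmt` (`T8.Fr V γ`).  If `Dx`: SYD gives `B` with `B.e = e`, S2D. -/
def S2eStmt : Prop := ∀ (ℓ : ℕ) [Fact ℓ.Prime] (M : Ideal (integralClosure ℤ ℂ)) [M.IsMaximal],
  (ℓ : integralClosure ℤ ℂ) ∈ M → 5 ≤ ℓ → ∀ (G : Type) [Group G] [Finite G] (e : G → FF M)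
  (V : Subgroup G) (γ : G → FF M), Ld ℓ e V γ → (∀ v ∈ V, v ^ ℓ = 1) → Nat.card V = ℓ ^ 2 →
  (∀ s ∈ Tg V γ, ∀ t ∈ Tg V γ, s * t * s⁻¹ * t⁻¹ ∈ Subgroup.centralizer (V : Set G)) →
  YY ℓ ⊤ e = 0

/-! ## 5. The final theorem -/

/-- the inertial quotient acts freely on `D/O_ℓ(G)` or it is abelian -/
def Fa (ℓ : ℕ) (M : Ideal (integralClosure ℤ ℂ)) {G : Type} [Group G] [Finite G] (D : Subgroup G)
    (th : Subgroup.centralizer (D : Set G) → ℂ) : Prop :=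
  T8.Fd ℓ M D th ∨ ∀ s ∈ Iner M D th, ∀ t ∈ Iner M D th,
    s * t * s⁻¹ * t⁻¹ ∈ Subgroup.centralizer (D : Set G)

/-- ARD: the reduction modulo `O_ℓ(G)`.

Proof.  As `SO.FrdStmt` (`Helper43_ASO/FRD.lean`), from `Helper24_AT8/FN8.lean`: `e` the block of `χ`,
`|G| altSum χ = |Z|² YY ℓ ⊤ (push p e)`, `γ'` from QT3.  Every `t' ∈ Tg V' γ'` acts on `V' = p(D)` as an element
`t ∈ Tg D γ` (QT3; `Tr` in FRD.lean), `Tg D γ = Iner M D th`; if the commutator of `s`, `t` centralises `D` then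
the commutator of `s'`, `t'` centralises `p(D)`. -/
def ArdStmt : Prop := ∀ (ℓ : ℕ) [Fact ℓ.Prime] (M : Ideal (integralClosure ℤ ℂ)) [M.IsMaximal],
  (ℓ : integralClosure ℤ ℂ) ∈ M → ∀ (G : Type) [Group G] [Finite G],
  opCore ℓ G ≤ Subgroup.center G → ∀ χ ∈ Irr G, ∀ D : Subgroup G, ML.IsDef ℓ M χ D →
  (∀ x ∈ D, ∀ y ∈ D, x * y = y * x) →
  ∀ th ∈ IrrBlock M (Subgroup.centralizer (D : Set G)).subtype χ,
  (∀ s ∈ Iner M D th, ∀ t ∈ Iner M D th,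
    s * t * s⁻¹ * t⁻¹ ∈ Subgroup.centralizer (D : Set G)) →
  ∀ (A : Type) [Group A] [Finite A] (p : G →* A), Function.Surjective p → p.ker = opCore ℓ G →
  Nat.card (D.map p) * Nat.card (opCore ℓ G) = Nat.card D ∧
  ∃ f γ' : A → FF M, Ld ℓ f (D.map p) γ' ∧
    (∀ s ∈ Tg (D.map p) γ', ∀ t ∈ Tg (D.map p) γ',
      s * t * s⁻¹ * t⁻¹ ∈ Subgroup.centralizer ((D.map p : Subgroup A) : Set A)) ∧
    (Nat.card G : ℤ) * altSum ℓ M χ = (Nat.card (opCore ℓ G) : ℤ) ^ 2 * YY ℓ ⊤ f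

/-- FAD: the final theorem.

Proof.  If `T8.Fd`: `SO.FnoStmt`.  Otherwise ARD for `p : G → G/O_ℓ(G)`; if `D.map p` has exponent `ℓ`: S2E;
otherwise it is cyclic of order `ℓ ^ 2`: `T5.t5a_` (`Helper11_AT5/Asm5.lean`), as in `SO.FnoStmt`. -/
def FadStmt : Prop := ∀ (ℓ : ℕ) [Fact ℓ.Prime] (M : Ideal (integralClosure ℤ ℂ)) [M.IsMaximal],
  (ℓ : integralClosure ℤ ℂ) ∈ M → 5 ≤ ℓ → ∀ (G : Type) [Group G] [Finite G],
  opCore ℓ G ≤ Subgroup.center G → ∀ χ ∈ Irr G, ∀ D : Subgroup G, ML.IsDef ℓ M χ D →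
  (∀ x ∈ D, ∀ y ∈ D, x * y = y * x) →
  Nat.card D = ℓ ^ 2 * Nat.card (opCore ℓ G) →
  ∀ th ∈ IrrBlock M (Subgroup.centralizer (D : Set G)).subtype χ, Fa ℓ M D th →
  altSum ℓ M χ = 0

end Pool.Agent.PP.SD
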